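import Pool.Agent.W636.IV.Meas2

/-! The null set lemma for base points on a sphere, from the one for base points on a hyperplane. -/

set_option autoImplicit false

open MeasureTheory

namespace Pool.Agent.W567.IV

lemma inner_sh {n : ℕ} (a v : EuclideanSpace ℝ (Fin n)) (s : ℝ) (hv : inner ℝ v v = (1 : ℝ)) :
    inner ℝ (a - s • v) v = inner ℝ a v - s := by
  rw [inner_sub_left, real_inner_smul_left, hv, mul_one]

lemma quad_sh {n : ℕ} (a v : EuclideanSpace ℝ (Fin n)) (s : ℝ) (hv : inner ℝ v v = (1 : ℝ)) :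
    (inner ℝ (a - s • v) v) ^ 2 - inner ℝ (a - s • v) (a - s • v) + inner ℝ a a =
      (inner ℝ a v) ^ 2 := by
  rw [inner_sh a v s hv, inner_sub_right, inner_smul_right, inner_sh a v s hv, inner_sub_left,
    real_inner_smul_left, real_inner_comm a v]
  ring

theorem meas_of (h2 : S_meas2) : S_meas := by
  classical
  intro n hn O r hr P hP Z hZ
  refine measure_null_of_locally_null Z ?_
  rintro q hq
  obtain ⟨hr1, hv1, hne, hPq⟩ := hZ q hq
  obtain ⟨i, hi⟩ : ∃ i, q.2 i ≠ 0 := by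
    by_contra hcon
    push Not at hcon
    have : q.2 = 0 := by
      ext i
      exact hcon i
    rw [this, norm_zero] at hv1
    exact zero_ne_one hv1
  let ν : EuclideanSpace ℝ (Fin n) := EuclideanSpace.single i 1
  have hν : ∀ x : EuclideanSpace ℝ (Fin n), inner ℝ ν x = x i := by
    intro x
    simp [ν, EuclideanSpace.inner_single_left]
  let Z' : Set (EuclideanSpace ℝ (Fin n) × EuclideanSpace ℝ (Fin n)) :=
    {w | inner ℝ ν w.1 = 0 ∧ ‖w.2‖ = 1 ∧ inner ℝ ν w.2 ≠ 0 ∧ ∀ t c : ℝ, 0 < c →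
        MvPolynomial.eval (Sum.elim (fun k => ((w.1 k + t * w.2 k : ℝ) : ℂ))
            (fun k => ((c * w.2 k : ℝ) : ℂ))) P = 0}
  have hZ' : Measure.hausdorffMeasure ((2 * n - 2 : ℕ) : ℝ) Z' = 0 :=
    h2 n hn ν 0 (by simp [ν]) P hP Z' (fun w hw => hw)
  obtain ⟨ε, hε, hεpos⟩ : ∃ ε : ℝ, ε * ε = 1 ∧ 0 < ε * inner ℝ (q.1 - O) q.2 := by
    rcases lt_or_gt_of_ne hne with h | h
    · exact ⟨-1, by norm_num, by linarith⟩
    · exact ⟨1, by norm_num, by linarith⟩
  let ψ : EuclideanSpace ℝ (Fin n) × EuclideanSpace ℝ (Fin n) →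
      EuclideanSpace ℝ (Fin n) × EuclideanSpace ℝ (Fin n) :=
    fun w => (w.1 - (w.1 i / w.2 i) • w.2, w.2)
  let Df : EuclideanSpace ℝ (Fin n) × EuclideanSpace ℝ (Fin n) → ℝ :=
    fun w => (inner ℝ (w.1 - O) w.2) ^ 2 - inner ℝ (w.1 - O) (w.1 - O) + r ^ 2
  let φ : EuclideanSpace ℝ (Fin n) × EuclideanSpace ℝ (Fin n) →
      EuclideanSpace ℝ (Fin n) × EuclideanSpace ℝ (Fin n) :=
    fun w => (w.1 + (-(inner ℝ (w.1 - O) w.2) + ε * Real.sqrt (Df w)) • w.2, w.2)
  have key : ∀ w : EuclideanSpace ℝ (Fin n) × EuclideanSpace ℝ (Fin n), ‖w.1 - O‖ = r →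
      ‖w.2‖ = 1 → Df (ψ w) = (inner ℝ (w.1 - O) w.2) ^ 2 := by
    intro w h1 h3
    have e1 : (ψ w).1 - O = (w.1 - O) - (w.1 i / w.2 i) • w.2 := by
      simp only [ψ]
      abel
    have e2 : (ψ w).2 = w.2 := rfl
    have e3 : inner ℝ w.2 w.2 = (1 : ℝ) := by
      rw [real_inner_self_eq_norm_sq, h3]
      norm_num
    have e4 : inner ℝ (w.1 - O) (w.1 - O) = r ^ 2 := by
      rw [real_inner_self_eq_norm_sq, h1]
    simp only [Df]
    rw [e1, e2, ← e4]
    exact quad_sh _ _ _ e3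
  have inv : ∀ w : EuclideanSpace ℝ (Fin n) × EuclideanSpace ℝ (Fin n), ‖w.1 - O‖ = r →
      ‖w.2‖ = 1 → 0 < ε * inner ℝ (w.1 - O) w.2 → φ (ψ w) = w := by
    intro w h1 h3 h4
    have e1 : (ψ w).1 - O = (w.1 - O) - (w.1 i / w.2 i) • w.2 := by
      simp only [ψ]
      abel
    have e2 : (ψ w).2 = w.2 := rfl
    have e3 : inner ℝ w.2 w.2 = (1 : ℝ) := by
      rw [real_inner_self_eq_norm_sq, h3]
      norm_num
    have e5 : Real.sqrt (Df (ψ w)) = ε * inner ℝ (w.1 - O) w.2 := by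
      rw [key w h1 h3]
      have : (inner ℝ (w.1 - O) w.2) ^ 2 = (ε * inner ℝ (w.1 - O) w.2) ^ 2 := by
        rw [mul_pow, sq ε, hε, one_mul]
      rw [this, Real.sqrt_sq h4.le]
    have e6 : φ (ψ w) = ((ψ w).1 + (-(inner ℝ ((ψ w).1 - O) (ψ w).2) +
        ε * Real.sqrt (Df (ψ w))) • (ψ w).2, (ψ w).2) := rfl
    rw [e6, e5, e1, e2, inner_sh _ _ _ e3]
    have e7 : -(inner ℝ (w.1 - O) w.2 - w.1 i / w.2 i) +
        ε * (ε * inner ℝ (w.1 - O) w.2) = w.1 i / w.2 i := by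
      rw [← mul_assoc, hε]
      ring
    rw [e7]
    refine Prod.ext ?_ rfl
    simp only [ψ]
    abel
  have hDpos : 0 < Df (ψ q) := by
    rw [key q hr1 hv1]
    positivity
  have hDsm : ContDiff ℝ 1 Df := by
    simp only [Df]
    exact (((contDiff_fst.sub contDiff_const).inner ℝ contDiff_snd).pow 2 |>.sub
      ((contDiff_fst.sub contDiff_const).inner ℝ (contDiff_fst.sub contDiff_const))).add
      contDiff_const
  have hφ : ContDiffAt ℝ 1 φ (ψ q) := by
    have h5 : ContDiffAt ℝ 1 (fun w => Real.sqrt (Df w)) (ψ q) :=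
      hDsm.contDiffAt.sqrt hDpos.ne'
    have h6 : ContDiffAt ℝ 1 (fun w : EuclideanSpace ℝ (Fin n) × EuclideanSpace ℝ (Fin n) =>
        -(inner ℝ (w.1 - O) w.2)) (ψ q) :=
      (((contDiff_fst.sub contDiff_const).inner ℝ contDiff_snd).neg).contDiffAt
    exact (contDiffAt_fst.add ((h6.add (contDiffAt_const.mul h5)).smul contDiffAt_snd)).prodMk
      contDiffAt_snd
  obtain ⟨K, N, hN, hLip⟩ := hφ.exists_lipschitzOnWith
  have hψ : ContinuousAt ψ q := by
    have h7 : ContinuousAt (fun w : EuclideanSpace ℝ (Fin n) × EuclideanSpace ℝ (Fin n) =>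
        w.1 i / w.2 i) q := by
      refine ContinuousAt.div ?_ ?_ hi
      · exact ((continuous_apply i).comp ((PiLp.continuous_ofLp 2 _).comp continuous_fst)).continuousAt
      · exact ((continuous_apply i).comp ((PiLp.continuous_ofLp 2 _).comp continuous_snd)).continuousAt
    exact (continuousAt_fst.sub (h7.smul continuousAt_snd)).prodMk continuousAt_snd
  have hU1 : ψ ⁻¹' N ∈ nhds q := hψ hN
  have hU2 : {w : EuclideanSpace ℝ (Fin n) × EuclideanSpace ℝ (Fin n) | w.2 i ≠ 0} ∈ nhds q := by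
    refine IsOpen.mem_nhds ?_ hi
    exact isOpen_ne_fun ((continuous_apply i).comp
      ((PiLp.continuous_ofLp 2 _).comp continuous_snd)) continuous_const
  have hU3 : {w : EuclideanSpace ℝ (Fin n) × EuclideanSpace ℝ (Fin n) |
      0 < ε * inner ℝ (w.1 - O) w.2} ∈ nhds q := by
    refine IsOpen.mem_nhds ?_ hεpos
    exact isOpen_lt continuous_const (continuous_const.mul
      ((continuous_fst.sub continuous_const).inner continuous_snd))
  refine ⟨Z ∩ (ψ ⁻¹' N ∩ {w | w.2 i ≠ 0} ∩ {w | 0 < ε * inner ℝ (w.1 - O) w.2}), ?_, ?_⟩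
  · exact inter_mem_nhdsWithin Z (Filter.inter_mem (Filter.inter_mem hU1 hU2) hU3)
  · have hsub : Z ∩ (ψ ⁻¹' N ∩ {w | w.2 i ≠ 0} ∩ {w | 0 < ε * inner ℝ (w.1 - O) w.2}) ⊆
        φ '' (N ∩ Z') := by
      rintro w ⟨hwZ, ⟨hwN, hwi⟩, hwε⟩
      obtain ⟨g1, g2, g3, g4⟩ := hZ w hwZ
      refine ⟨ψ w, ⟨hwN, ?_, g2, ?_, ?_⟩, inv w g1 g2 hwε⟩
      · rw [hν]
        simp only [ψ, PiLp.sub_apply, PiLp.smul_apply, smul_eq_mul]
        have : w.2 i ≠ 0 := hwi
        field_simp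
        ring
      · rw [hν]
        exact hwi
      · intro t c hc
        rw [← g4 (t - w.1 i / w.2 i) c hc]
        congr 2
        funext σ
        rcases σ with k | k
        · simp only [Sum.elim_inl, ψ, PiLp.sub_apply, PiLp.smul_apply, smul_eq_mul]
          congr 1
          ring
        · simp only [Sum.elim_inr, ψ]
    refine measure_mono_null hsub ?_
    have h8 := (hLip.mono (Set.inter_subset_left (s := N) (t := Z'))).hausdorffMeasure_image_le
      (d := ((2 * n - 2 : ℕ) : ℝ)) (by positivity)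
    have h9 : Measure.hausdorffMeasure ((2 * n - 2 : ℕ) : ℝ) (N ∩ Z') = 0 :=
      measure_mono_null Set.inter_subset_right hZ'
    rw [h9, mul_zero] at h8
    exact le_antisymm h8 zero_le

end Pool.Agent.W567.IV
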