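import Pool.Agent.W567.IV.Defs

/-! Basic algebra of reflections. -/

set_option autoImplicit false

open scoped Classical

namespace Pool.Agent.W567.IV

variable {n : ℕ} {F : Type} [Field F] [Algebra ℂ F]

/-- the image of a line -/
def mapL {F' : Type} (φ : F → F') (l : Line n F) : Line n F' := (φ ∘ l.1, φ ∘ l.2)

/-- the image of a chain -/
def mapC {F' : Type} (φ : F → F') (c : Ch n F) : Ch n F' := c.map (fun p => (p.1, φ p.2))

section map
variable {F' : Type} [Field F'] [Algebra ℂ F'] (φ : F →ₐ[ℂ] F')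

lemma ctr_map (S : Sph n) : φ ∘ S.ctr F = S.ctr F' := by
  funext k; simp [Sph.ctr]

lemma rad_map (S : Sph n) : φ (S.rad F) = S.rad F' := by
  simp [Sph.rad]

lemma dot_map (u v : Fin n → F) : φ (u ⬝ᵥ v) = (φ ∘ u) ⬝ᵥ (φ ∘ v) := by
  simp [dotProduct, map_sum]

lemma comp_sub (u v : Fin n → F) : φ ∘ (u - v) = φ ∘ u - φ ∘ v := by
  funext k; simp

lemma comp_add (u v : Fin n → F) : φ ∘ (u + v) = φ ∘ u + φ ∘ v := by
  funext k; simp

lemma comp_smul (a : F) (v : Fin n → F) : φ ∘ (a • v) = φ a • (φ ∘ v) := by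
  funext k; simp

lemma DD_map (S : Sph n) (l : Line n F) : DD S (mapL φ l) = φ (DD S l) := by
  simp only [DD, mapL, map_sub, map_mul, map_pow, dot_map, comp_sub, ctr_map, rad_map]

lemma tau_map (S : Sph n) (δ : F) (l : Line n F) : tau S (φ δ) (mapL φ l) = φ (tau S δ l) := by
  simp only [tau, mapL, map_sub, map_div₀, dot_map, comp_sub, ctr_map]

lemma YY_map (S : Sph n) (δ : F) (l : Line n F) : YY S (φ δ) (mapL φ l) = φ ∘ (YY S δ l) := by
  simp only [YY, tau_map, comp_add, comp_smul, comp_sub, ctr_map]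
  rfl

lemma RR_map (S : Sph n) (δ : F) (l : Line n F) : RR S (φ δ) (mapL φ l) = mapL φ (RR S δ l) := by
  refine Prod.ext ?_ ?_
  · simp only [RR, mapL, comp_add, comp_smul, map_mul, map_div₀, map_ofNat, rad_map]
    rw [← mapL, tau_map, YY_map]
  · simp only [RR, mapL, comp_sub, comp_smul, map_mul, map_div₀, map_ofNat, rad_map]
    rw [← mapL, YY_map]

lemma endl_map (c : Ch n F) (l : Line n F) : endl (mapC φ c) (mapL φ l) = mapL φ (endl c l) := by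
  induction c with
  | nil => rfl
  | cons p c ih =>
    show RR p.1 (φ p.2) (endl (mapC φ c) (mapL φ l)) = _
    rw [ih, RR_map]; rfl

lemma compat_map (S : Sph n) (δ : F) (c : Ch n F) (h : compat S δ c) :
    compat S (φ δ) (mapC φ c) := by
  induction c with
  | nil => trivial
  | cons p c ih =>
    intro hO
    refine ⟨fun hρ => ?_, ih (h hO).2⟩
    exact congrArg φ ((h hO).1 hρ)

lemma Val_map (c : Ch n F) (l : Line n F) (h : Val c l) : Val (mapC φ c) (mapL φ l) := by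
  induction c with
  | nil => trivial
  | cons p c ih =>
    obtain ⟨h1, h2, h3⟩ := h
    refine ⟨ih h1, ?_, compat_map φ _ _ _ h3⟩
    show (φ p.2) ^ 2 = DD p.1 (endl (mapC φ c) (mapL φ l))
    rw [endl_map, DD_map, ← h2, map_pow]

lemma mapC_fst (c : Ch n F) : (mapC φ c).map Prod.fst = c.map Prod.fst := by
  simp [mapC, Function.comp_def]

end map

section basic
variable (S : Sph n) (δ : F) (l : Line n F)

lemma YY_dot_v (hq : l.2 ⬝ᵥ l.2 ≠ 0) : YY S δ l ⬝ᵥ l.2 = δ := by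
  simp only [YY, tau, add_dotProduct, smul_dotProduct, smul_eq_mul]
  field_simp
  ring

lemma YY_dot_YY (hq : l.2 ⬝ᵥ l.2 ≠ 0) (hD : δ ^ 2 = DD S l) : YY S δ l ⬝ᵥ YY S δ l = S.rad F := by
  simp only [YY, tau, add_dotProduct, smul_dotProduct, smul_eq_mul, dotProduct_add,
    dotProduct_smul]
  rw [dotProduct_comm l.2 (l.1 - S.ctr F)]
  unfold DD at hD
  field_simp
  linear_combination hD

lemma RR_q (hq : l.2 ⬝ᵥ l.2 ≠ 0) (hr : S.rad F ≠ 0) (hD : δ ^ 2 = DD S l) :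
    (RR S δ l).2 ⬝ᵥ (RR S δ l).2 = l.2 ⬝ᵥ l.2 := by
  have h1 := YY_dot_v S δ l hq
  have h2 := YY_dot_YY S δ l hq hD
  simp only [RR, sub_dotProduct, smul_dotProduct, smul_eq_mul, dotProduct_sub,
    dotProduct_smul]
  rw [dotProduct_comm l.2 (YY S δ l), h1, h2]
  field_simp
  ring

lemma u_dot_YY (hq : l.2 ⬝ᵥ l.2 ≠ 0) (hD : δ ^ 2 = DD S l) :
    (l.1 - S.ctr F) ⬝ᵥ YY S δ l = S.rad F - tau S δ l * δ := by
  have h1 := YY_dot_v S δ l hq
  have h2 := YY_dot_YY S δ l hq hD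
  have h3 : (l.1 - S.ctr F) = YY S δ l - tau S δ l • l.2 := by simp [YY]
  rw [h3]
  simp only [sub_dotProduct, smul_dotProduct, smul_eq_mul]
  rw [dotProduct_comm l.2 (YY S δ l), h1, h2]

lemma RR_sub_ctr : (RR S δ l).1 - S.ctr F =
    (l.1 - S.ctr F) + (tau S δ l * (2 * δ / S.rad F)) • YY S δ l := by
  simp only [RR]; abel

lemma RR_b (hq : l.2 ⬝ᵥ l.2 ≠ 0) (hr : S.rad F ≠ 0) (hD : δ ^ 2 = DD S l) :
    ((RR S δ l).1 - S.ctr F) ⬝ᵥ (RR S δ l).2 = (l.1 - S.ctr F) ⬝ᵥ l.2 - 2 * δ := by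
  have h1 := YY_dot_v S δ l hq
  have h2 := YY_dot_YY S δ l hq hD
  have h3 := u_dot_YY S δ l hq hD
  rw [RR_sub_ctr]
  set u := l.1 - S.ctr F with hu
  simp only [RR, add_dotProduct, smul_dotProduct, smul_eq_mul, dotProduct_sub,
    dotProduct_smul]
  rw [h1, h2, h3]
  field_simp
  ring

lemma RR_a (hq : l.2 ⬝ᵥ l.2 ≠ 0) (hr : S.rad F ≠ 0) (hD : δ ^ 2 = DD S l) :
    ((RR S δ l).1 - S.ctr F) ⬝ᵥ ((RR S δ l).1 - S.ctr F)
      = (l.1 - S.ctr F) ⬝ᵥ (l.1 - S.ctr F) + 4 * tau S δ l * δ := by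
  have h2 := YY_dot_YY S δ l hq hD
  have h3 := u_dot_YY S δ l hq hD
  rw [RR_sub_ctr]
  set u := l.1 - S.ctr F with hu
  simp only [add_dotProduct, smul_dotProduct, smul_eq_mul, dotProduct_add,
    dotProduct_smul]
  rw [dotProduct_comm (YY S δ l) u, h2, h3]
  field_simp
  ring

lemma RR_DD (hq : l.2 ⬝ᵥ l.2 ≠ 0) (hr : S.rad F ≠ 0) (hD : δ ^ 2 = DD S l) :
    DD S (RR S δ l) = δ ^ 2 := by
  have h0 := hD
  unfold DD at h0 ⊢
  rw [RR_b S δ l hq hr hD, RR_a S δ l hq hr hD, RR_q S δ l hq hr hD, h0]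
  simp only [tau]
  field_simp
  ring

lemma tau_RR (hq : l.2 ⬝ᵥ l.2 ≠ 0) (hr : S.rad F ≠ 0) (hD : δ ^ 2 = DD S l) :
    tau S (-δ) (RR S δ l) = tau S δ l := by
  unfold tau
  rw [RR_b S δ l hq hr hD, RR_q S δ l hq hr hD]
  congr 1
  ring

lemma YY_RR (hq : l.2 ⬝ᵥ l.2 ≠ 0) (hr : S.rad F ≠ 0) (hD : δ ^ 2 = DD S l) :
    YY S (-δ) (RR S δ l) = YY S δ l := by
  have h : YY S (-δ) (RR S δ l) = ((RR S δ l).1 - S.ctr F) + tau S (-δ) (RR S δ l) • (RR S δ l).2 :=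
    rfl
  rw [h, tau_RR S δ l hq hr hD, RR_sub_ctr]
  have h' : YY S δ l = (l.1 - S.ctr F) + tau S δ l • l.2 := rfl
  simp only [RR]
  rw [smul_sub, smul_smul]
  nth_rewrite 3 [h']
  abel

lemma RR_inv (hq : l.2 ⬝ᵥ l.2 ≠ 0) (hr : S.rad F ≠ 0) (hD : δ ^ 2 = DD S l) :
    RR S (-δ) (RR S δ l) = l := by
  have h1 := tau_RR S δ l hq hr hD
  have h2 := YY_RR S δ l hq hr hD
  refine Prod.ext ?_ ?_
  · show (RR S δ l).1 + (tau S (-δ) (RR S δ l) * (2 * -δ / S.rad F)) • YY S (-δ) (RR S δ l) = l.1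
    rw [h1, h2]
    simp only [RR]
    rw [add_assoc, ← add_smul]
    have : tau S δ l * (2 * δ / S.rad F) + tau S δ l * (2 * -δ / S.rad F) = 0 := by ring
    rw [this]; simp
  · show (RR S δ l).2 - (2 * -δ / S.rad F) • YY S (-δ) (RR S δ l) = l.2
    rw [h2]
    simp only [RR]
    rw [sub_sub, ← add_smul]
    have : 2 * δ / S.rad F + 2 * -δ / S.rad F = 0 := by ring
    rw [this]; simp

/-- the discriminant of a concentric sphere -/
lemma DD_conc (S T : Sph n) (h : T.O = S.O) (l : Line n F) :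
    DD T l = DD S l + (l.2 ⬝ᵥ l.2) * (T.rad F - S.rad F) := by
  have : T.ctr F = S.ctr F := by unfold Sph.ctr; rw [h]
  unfold DD; rw [this]; ring

lemma RR_DD_conc (S T : Sph n) (h : T.O = S.O) (hq : l.2 ⬝ᵥ l.2 ≠ 0) (hr : S.rad F ≠ 0)
    (hD : δ ^ 2 = DD S l) : DD T (RR S δ l) = DD T l := by
  rw [DD_conc S T h, RR_DD S δ l hq hr hD, hD, RR_q S δ l hq hr hD, ← DD_conc S T h]

lemma rad_ne (S : Sph n) (h : 0 < S.ρ) : S.rad F ≠ 0 := by
  unfold Sph.rad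
  rw [Ne, FaithfulSMul.algebraMap_eq_zero_iff]
  exact_mod_cast h.ne'

lemma endl_q (c : Ch n F) (l : Line n F) (hW : ∀ p ∈ c, 0 < p.1.ρ) (hq : l.2 ⬝ᵥ l.2 ≠ 0)
    (hv : Val c l) : (endl c l).2 ⬝ᵥ (endl c l).2 = l.2 ⬝ᵥ l.2 := by
  induction c with
  | nil => rfl
  | cons p c ih =>
    have ih' := ih (fun p hp => hW p (List.mem_cons_of_mem _ hp)) hv.1
    show (RR p.1 p.2 (endl c l)).2 ⬝ᵥ (RR p.1 p.2 (endl c l)).2 = _
    rw [RR_q _ _ _ (by rw [ih']; exact hq) (rad_ne _ (hW p (List.mem_cons_self))) hv.2.1, ih']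

end basic

end Pool.Agent.W567.IV
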