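import Pool.Agent.W567.IV.Alg

/-! Shifts of the parametrisation of a line. -/

set_option autoImplicit false

open scoped Classical

namespace Pool.Agent.W567.IV

variable {n : ℕ} {F : Type} [Field F] [Algebra ℂ F]

/-- shift of the time -/
def shiftL (s : F) (l : Line n F) : Line n F := (l.1 + s • l.2, l.2)

lemma shift_sub (s : F) (l : Line n F) (S : Sph n) :
    (shiftL s l).1 - S.ctr F = (l.1 - S.ctr F) + s • l.2 := by
  simp only [shiftL]; abel

lemma DD_shift (S : Sph n) (s : F) (l : Line n F) : DD S (shiftL s l) = DD S l := by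
  unfold DD
  rw [shift_sub]
  simp only [shiftL, add_dotProduct, dotProduct_add, smul_dotProduct, dotProduct_smul, smul_eq_mul]
  rw [dotProduct_comm l.2 (l.1 - S.ctr F)]
  ring

lemma tau_shift (S : Sph n) (δ s : F) (l : Line n F) (hq : l.2 ⬝ᵥ l.2 ≠ 0) :
    tau S δ (shiftL s l) = tau S δ l - s := by
  unfold tau
  rw [shift_sub]
  simp only [shiftL, add_dotProduct, smul_dotProduct, smul_eq_mul]
  field_simp
  ring

lemma YY_shift (S : Sph n) (δ s : F) (l : Line n F) (hq : l.2 ⬝ᵥ l.2 ≠ 0) :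
    YY S δ (shiftL s l) = YY S δ l := by
  unfold YY
  rw [shift_sub, tau_shift S δ s l hq]
  simp only [shiftL, sub_smul]
  abel

lemma RR_shift (S : Sph n) (δ s : F) (l : Line n F) (hq : l.2 ⬝ᵥ l.2 ≠ 0) :
    RR S δ (shiftL s l) = shiftL s (RR S δ l) := by
  refine Prod.ext ?_ ?_
  · funext k
    simp only [RR, YY_shift S δ s l hq, tau_shift S δ s l hq]
    simp only [shiftL, Pi.add_apply, Pi.smul_apply, smul_eq_mul, Pi.sub_apply]
    ring
  · simp only [RR, YY_shift S δ s l hq]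
    rfl

lemma endl_shift (c : Ch n F) (s : F) (l : Line n F) (hW : ∀ p ∈ c, 0 < p.1.ρ)
    (hq : l.2 ⬝ᵥ l.2 ≠ 0) (hv : Val c l) : endl c (shiftL s l) = shiftL s (endl c l) := by
  induction c with
  | nil => rfl
  | cons p c ih =>
    have hW' : ∀ p ∈ c, 0 < p.1.ρ := fun p hp => hW p (List.mem_cons_of_mem _ hp)
    show RR p.1 p.2 (endl c (shiftL s l)) = _
    rw [ih hW' hv.1, RR_shift _ _ _ _ (by rw [endl_q c l hW' hq hv.1]; exact hq)]
    rfl

lemma Val_shift (c : Ch n F) (s : F) (l : Line n F) (hW : ∀ p ∈ c, 0 < p.1.ρ)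
    (hq : l.2 ⬝ᵥ l.2 ≠ 0) (hv : Val c l) : Val c (shiftL s l) := by
  induction c with
  | nil => trivial
  | cons p c ih =>
    have hW' : ∀ p ∈ c, 0 < p.1.ρ := fun p hp => hW p (List.mem_cons_of_mem _ hp)
    refine ⟨ih hW' hv.1, ?_, hv.2.2⟩
    rw [endl_shift c s l hW' hq hv.1, DD_shift]
    exact hv.2.1

/-- the reflected line, parametrised by the collision point -/
noncomputable def bl (S : Sph n) (δ : F) (l : Line n F) : Line n F :=
  (S.ctr F + YY S δ l, (RR S δ l).2)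

lemma RR_eq_shift (S : Sph n) (δ : F) (l : Line n F) :
    RR S δ l = shiftL (-tau S δ l) (bl S δ l) := by
  refine Prod.ext ?_ rfl
  funext k
  have h : YY S δ l k = (l.1 k - S.ctr F k) + tau S δ l * l.2 k := by
    simp only [YY, Pi.add_apply, Pi.sub_apply, Pi.smul_apply, smul_eq_mul]
  simp only [RR, shiftL, bl, Pi.add_apply, Pi.smul_apply, smul_eq_mul, Pi.sub_apply]
  linear_combination (-1 : F) * h

lemma bl_sub (S : Sph n) (δ : F) (l : Line n F) : (bl S δ l).1 - S.ctr F = YY S δ l := by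
  simp only [bl]; abel

lemma DD_bl (S T : Sph n) (δ : F) (l : Line n F) : DD T (bl S δ l) = DD T (RR S δ l) := by
  rw [RR_eq_shift, DD_shift]

lemma YY_dot_RR (S : Sph n) (δ : F) (l : Line n F) (hq : l.2 ⬝ᵥ l.2 ≠ 0) (hr : S.rad F ≠ 0)
    (hD : δ ^ 2 = DD S l) : YY S δ l ⬝ᵥ (RR S δ l).2 = -δ := by
  have h1 := YY_dot_v S δ l hq
  have h2 := YY_dot_YY S δ l hq hD
  simp only [RR, dotProduct_sub, dotProduct_smul, smul_eq_mul]
  rw [h1, h2]
  field_simp
  ring

end Pool.Agent.W567.IV
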