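import Pool.Agent.W567.IV.Grow
import Pool.Agent.W567.IV.Shift

/-! Backward construction of special chains. -/

set_option autoImplicit false

open scoped Classical

set_option linter.unusedSectionVars false

namespace Pool.Agent.W567.IV

variable {n : ℕ} {L : Type} [Field L] [Algebra ℂ L]

/-- a real vector as a vector over `F` -/
noncomputable def cv (F : Type) [Field F] [Algebra ℂ F] (O : Fin n → ℝ) : Fin n → F :=
  fun k => algebraMap ℂ F ((O k : ℝ) : ℂ)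

lemma ctr_eq_cv (S : Sph n) (F : Type) [Field F] [Algebra ℂ F] : S.ctr F = cv F S.O := rfl

lemma eqv_cv (O : Fin n → ℝ) (k : Fin n) : Eqv (cv (LaurentSeries L) O k) (cv L O k) := eqv_alg _

/-- large nearly isotropic states -/
structure Lg (w : Fin n → L) (O : Fin n → ℝ) (m e : ℕ) (α β : L)
    (l : Line n (LaurentSeries L)) : Prop where
  he : 1 ≤ e
  hem : e ≤ m
  hα : α ≠ 0
  hβ : β ≠ 0
  hv : ∀ k, Eqv (kap ^ m * l.2 k) (α * w k)
  hB : ∃ B, (l.1 - cv (LaurentSeries L) O) ⬝ᵥ l.2 = kap * B ∧ Eqv (kap ^ e * B) β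
  hY : ∀ k, kap ^ (m + e) * (l.1 - cv (LaurentSeries L) O) k ∈ OO L
  ha : (l.1 - cv (LaurentSeries L) O) ⬝ᵥ (l.1 - cv (LaurentSeries L) O) ∈ OO L
  hq : ∃ q', l.2 ⬝ᵥ l.2 = kap ^ 2 * q' ∧ Eqv q' 1

/-- states from which a reflection in a sphere with a different centre is possible -/
structure Pre (w : Fin n → L) (O : Fin n → ℝ) (m : ℕ) (α : L)
    (l : Line n (LaurentSeries L)) : Prop where
  hα : α ≠ 0
  hv : ∀ k, Eqv (kap ^ m * l.2 k) (α * w k)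
  hB : Eqv (kap ^ m * ((l.1 - cv (LaurentSeries L) O) ⬝ᵥ l.2)) 0
  hY : ∀ k, kap ^ (2 * m + 1) * (l.1 - cv (LaurentSeries L) O) k ∈ OO L
  ha : (l.1 - cv (LaurentSeries L) O) ⬝ᵥ (l.1 - cv (LaurentSeries L) O) ∈ OO L
  hq : ∃ q', l.2 ⬝ᵥ l.2 = kap ^ 2 * q' ∧ Eqv q' 1

lemma q_ne {v : Fin n → LaurentSeries L} (h : ∃ q', v ⬝ᵥ v = kap ^ 2 * q' ∧ Eqv q' (1 : L)) :
    v ⬝ᵥ v ≠ 0 := by
  obtain ⟨q', h1, h2⟩ := h
  rw [h1]
  exact mul_ne_zero (pow_ne_zero _ kap_ne) (h2.ne one_ne_zero)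

lemma Lg.pre {w : Fin n → L} {O : Fin n → ℝ} {m e : ℕ} {α β : L}
    {l : Line n (LaurentSeries L)} (h : Lg w O m e α β l) : Pre w O m α l := by
  refine ⟨h.hα, h.hv, ?_, ?_, h.ha, h.hq⟩
  · obtain ⟨B, h1, h2⟩ := h.hB
    rw [h1]
    obtain ⟨j, hj⟩ := Nat.exists_eq_add_of_le h.hem
    have : kap ^ m * (kap * B) = kap ^ (j + 1) * (kap ^ e * B) := by
      rw [hj]; ring
    rw [this]
    exact eqv_kap_pow_mul h2.mem (by omega)
  · intro k
    obtain ⟨j, hj⟩ := Nat.exists_eq_add_of_le h.hem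
    have : kap ^ (2 * m + 1) * (l.1 - cv (LaurentSeries L) O) k =
        kap ^ (j + 1) * (kap ^ (m + e) * (l.1 - cv (LaurentSeries L) O) k) := by
      rw [hj]; ring
    rw [this]
    exact (OO L).mul_mem (kap_pow_mem _) (h.hY k)

/-- reflection in a concentric sphere, large states -/
lemma same_large (hsq : S_sqrt) [CharZero L] {w : Fin n → L} {m e : ℕ} {α β : L}
    {l : Line n (LaurentSeries L)} (S : Sph n) (hρ : 0 < S.ρ) (h : Lg w S.O m e α β l) :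
    ∃ δ α1, δ ^ 2 = DD S l ∧ (∃ Δ, -δ = kap * Δ ∧ Eqv (kap ^ e * Δ) β) ∧
      Lg w S.O (m + 2 * e) e α1 β (bl S δ l) := by
  obtain ⟨B, hB1, hB2⟩ := h.hB
  obtain ⟨q', hq1, hq2⟩ := h.hq
  have he := h.he
  have hρL := radL_ne (L := L) S hρ
  have hr : S.rad (LaurentSeries L) ≠ 0 := rad_ne S hρ
  have hq0 := q_ne h.hq
  set u := l.1 - S.ctr (LaurentSeries L) with hu
  have hD : DD S l = kap ^ 2 * (B ^ 2 - q' * (u ⬝ᵥ u - S.rad _)) := by
    unfold DD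
    rw [← hu, show u ⬝ᵥ l.2 = kap * B from hB1, hq1]
    ring
  have hG : Eqv (kap ^ (2 * e) * (B ^ 2 - q' * (u ⬝ᵥ u - S.rad _))) ((-β) ^ 2) := by
    have e1 : kap ^ (2 * e) * (B ^ 2 - q' * (u ⬝ᵥ u - S.rad _)) =
        (kap ^ e * B) ^ 2 - kap ^ (2 * e) * (q' * (u ⬝ᵥ u - S.rad _)) := by ring
    rw [e1]
    have e2 : (-β) ^ 2 = β ^ 2 - 0 := by ring
    rw [e2]
    refine (hB2.pow 2).sub (eqv_kap_pow_mul ?_ (by omega))
    exact (OO L).mul_mem hq2.mem ((OO L).sub_mem h.ha (eqv_rad S).mem)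
  obtain ⟨Δ, hΔ1, hΔ2⟩ := root_exists hsq e hD hG (neg_ne_zero.mpr h.hβ)
  have hcore := step_core S hρ l w m e α β (-β) 0 q' B Δ hq1 hq2 h.hv hB1 hB2
    (by
      intro k
      rw [zero_mul]
      have e1 : kap ^ (m + e + 1) * (l.1 - S.ctr (LaurentSeries L)) k =
        kap * (kap ^ (m + e) * (l.1 - cv (LaurentSeries L) S.O) k) := by
        rw [ctr_eq_cv]; ring
      rw [e1]
      exact eqv_kap_mul (h.hY k)) hΔ2
  obtain ⟨hc1, hc2⟩ := hcore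
  have he0 : e ≠ 0 := by omega
  rw [if_neg he0] at hc2
  have hα1 : (0 - 2 * -β * (0 + (-β - β) * α) / radL L S) ≠ 0 := by
    have : (0 - 2 * -β * (0 + (-β - β) * α) / radL L S) = -(4 * β ^ 2 * α / radL L S) := by ring
    rw [this]
    refine neg_ne_zero.mpr (div_ne_zero (mul_ne_zero (mul_ne_zero ?_ (pow_ne_zero _ h.hβ)) h.hα) hρL)
    norm_num
  refine ⟨kap * Δ, _, hΔ1, ⟨-Δ, by ring, ?_⟩, ⟨h.he, by omega, hα1, h.hβ, hc2, ?_, ?_, ?_, ?_⟩⟩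
  · have := hΔ2.neg
    rw [neg_neg] at this
    rw [mul_neg]; exact this
  · refine ⟨-Δ, ?_, ?_⟩
    · rw [← ctr_eq_cv, bl_sub]
      show YY S (kap * Δ) l ⬝ᵥ (RR S (kap * Δ) l).2 = _
      rw [YY_dot_RR S _ l hq0 hr hΔ1]; ring
    · have := hΔ2.neg
      rw [neg_neg] at this
      rw [mul_neg]; exact this
  · intro k
    rw [← ctr_eq_cv, bl_sub]
    obtain ⟨j, hj⟩ := Nat.exists_eq_add_of_le he
    have e1 : kap ^ (m + 2 * e + e) * YY S (kap * Δ) l k =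
        kap ^ (2 * j + 1) * (kap ^ (m + e + 1) * YY S (kap * Δ) l k) := by
      rw [hj]; ring
    rw [e1]
    exact (OO L).mul_mem (kap_pow_mem _) (hc1 k).mem
  · rw [← ctr_eq_cv, bl_sub, YY_dot_YY S _ l hq0 hΔ1]
    exact (eqv_rad S).mem
  · refine ⟨q', ?_, hq2⟩
    show (RR S (kap * Δ) l).2 ⬝ᵥ (RR S (kap * Δ) l).2 = _
    rw [RR_q S _ l hq0 hr hΔ1, hq1]

/-- reflection in a sphere with another centre -/
lemma diff_large (hsq : S_sqrt) [CharZero L] {w : Fin n → L} {O : Fin n → ℝ} {m : ℕ} {α : L}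
    {l : Line n (LaurentSeries L)} (S : Sph n) (hρ : 0 < S.ρ) (h : Pre w O m α l)
    (hw : (cv L O - cv L S.O) ⬝ᵥ w ≠ 0) :
    ∃ δ α1 β, δ ^ 2 = DD S l ∧ (∃ Δ, -δ = kap * Δ ∧ Eqv (kap ^ (m + 1) * Δ) β) ∧
      Lg w S.O (3 * m + 2) (m + 1) α1 β (bl S δ l) := by
  obtain ⟨q', hq1, hq2⟩ := h.hq
  have hρL := radL_ne (L := L) S hρ
  have hr : S.rad (LaurentSeries L) ≠ 0 := rad_ne S hρ
  have hq0 := q_ne h.hq
  have hk : (kap : LaurentSeries L) ≠ 0 := kap_ne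
  set c : Fin n → LaurentSeries L := cv _ O - cv _ S.O with hcdef
  set u0 := l.1 - cv (LaurentSeries L) O with hu0
  have hu : l.1 - S.ctr (LaurentSeries L) = u0 + c := by
    rw [hu0, hcdef, ctr_eq_cv]; abel
  have hcE : ∀ k, Eqv (c k) ((cv L O - cv L S.O) k) := fun k => (eqv_cv O k).sub (eqv_cv S.O k)
  set β : L := α * ((cv L O - cv L S.O) ⬝ᵥ w) with hβdef
  have hβ : β ≠ 0 := mul_ne_zero h.hα hw
  -- the scalar product
  have hcv : Eqv (kap ^ m * (c ⬝ᵥ l.2)) β := by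
    have e1 : kap ^ m * (c ⬝ᵥ l.2) = c ⬝ᵥ (fun k => kap ^ m * l.2 k) := by
      unfold dotProduct
      rw [Finset.mul_sum]
      exact Finset.sum_congr rfl (fun k _ => by ring)
    have e2 : β = (cv L O - cv L S.O) ⬝ᵥ (fun k => α * w k) := by
      rw [hβdef]
      unfold dotProduct
      rw [Finset.mul_sum]
      exact Finset.sum_congr rfl (fun k _ => by ring)
    rw [e1, e2]
    exact eqv_dot hcE h.hv
  set b := (l.1 - S.ctr (LaurentSeries L)) ⬝ᵥ l.2 with hb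
  have hbE : Eqv (kap ^ m * b) β := by
    have e1 : kap ^ m * b = kap ^ m * (u0 ⬝ᵥ l.2) + kap ^ m * (c ⬝ᵥ l.2) := by
      rw [hb, hu, add_dotProduct]; ring
    rw [e1, show β = 0 + β by ring]
    exact h.hB.add hcv
  set B := b / kap with hBdef
  have hB1 : (l.1 - S.ctr (LaurentSeries L)) ⬝ᵥ l.2 = kap * B := by
    rw [hBdef, ← hb]; field_simp
  have hB2 : Eqv (kap ^ (m + 1) * B) β := by
    have e1 : kap ^ (m + 1) * B = kap ^ m * b := by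
      rw [hBdef]; field_simp; ring
    rw [e1]; exact hbE
  have hD : DD S l = kap ^ 2 * (B ^ 2 - q' * ((u0 + c) ⬝ᵥ (u0 + c) - S.rad _)) := by
    unfold DD
    rw [hB1, hq1, hu]
    ring
  have hcc : c ⬝ᵥ c ∈ OO L := mem_dot (fun k => (hcE k).mem) (fun k => (hcE k).mem)
  have hcu : kap ^ (2 * m + 1) * (c ⬝ᵥ u0) ∈ OO L := by
    have e1 : kap ^ (2 * m + 1) * (c ⬝ᵥ u0) = c ⬝ᵥ (fun k => kap ^ (2 * m + 1) * u0 k) := by
      unfold dotProduct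
      rw [Finset.mul_sum]
      exact Finset.sum_congr rfl (fun k _ => by ring)
    rw [e1]
    exact mem_dot (fun k => (hcE k).mem) h.hY
  have hG : Eqv (kap ^ (2 * (m + 1)) * (B ^ 2 - q' * ((u0 + c) ⬝ᵥ (u0 + c) - S.rad _)))
      ((-β) ^ 2) := by
    have e1 : kap ^ (2 * (m + 1)) * (B ^ 2 - q' * ((u0 + c) ⬝ᵥ (u0 + c) - S.rad _)) =
        (kap ^ (m + 1) * B) ^ 2 - kap * (q' * (kap ^ (2 * m + 1) * (u0 ⬝ᵥ u0 + c ⬝ᵥ c - S.rad _)
          + 2 * (kap ^ (2 * m + 1) * (c ⬝ᵥ u0)))) := by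
      simp only [add_dotProduct, dotProduct_add]
      rw [dotProduct_comm u0 c]
      ring
    rw [e1]
    have e2 : (-β) ^ 2 = β ^ 2 - 0 := by ring
    rw [e2]
    refine (hB2.pow 2).sub (eqv_kap_mul ?_)
    refine (OO L).mul_mem hq2.mem ((OO L).add_mem ((OO L).mul_mem (kap_pow_mem _)
      ((OO L).sub_mem ((OO L).add_mem h.ha hcc) (eqv_rad S).mem)) ?_)
    rw [two_mul]
    exact (OO L).add_mem hcu hcu
  obtain ⟨Δ, hΔ1, hΔ2⟩ := root_exists hsq (m + 1) hD hG (neg_ne_zero.mpr hβ)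
  have hcore := step_core S hρ l w m (m + 1) α β (-β) 0 q' B Δ hq1 hq2 h.hv hB1 hB2
    (by
      intro k
      rw [zero_mul, hu]
      have e1 : kap ^ (m + (m + 1) + 1) * (u0 + c) k =
        kap * (kap ^ (2 * m + 1) * u0 k + kap ^ (2 * m + 1) * c k) := by
        rw [Pi.add_apply]; ring
      rw [e1]
      exact eqv_kap_mul ((OO L).add_mem (h.hY k) ((OO L).mul_mem (kap_pow_mem _) (hcE k).mem))) hΔ2
  obtain ⟨hc1, hc2⟩ := hcore
  have he0 : m + 1 ≠ 0 := by omega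
  rw [if_neg he0] at hc2
  have hα1 : (0 - 2 * -β * (0 + (-β - β) * α) / radL L S) ≠ 0 := by
    have : (0 - 2 * -β * (0 + (-β - β) * α) / radL L S) = -(4 * β ^ 2 * α / radL L S) := by ring
    rw [this]
    refine neg_ne_zero.mpr (div_ne_zero (mul_ne_zero (mul_ne_zero ?_ (pow_ne_zero _ hβ)) h.hα) hρL)
    norm_num
  refine ⟨kap * Δ, _, β, hΔ1, ⟨-Δ, by ring, ?_⟩, ⟨by omega, by omega, hα1, hβ, ?_, ?_, ?_, ?_, ?_⟩⟩
  · have := hΔ2.neg
    rw [neg_neg] at this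
    rw [mul_neg]; exact this
  · intro k
    have := hc2 k
    have e1 : m + 2 * (m + 1) = 3 * m + 2 := by ring
    rw [e1] at this
    exact this
  · refine ⟨-Δ, ?_, ?_⟩
    · rw [← ctr_eq_cv, bl_sub]
      show YY S (kap * Δ) l ⬝ᵥ (RR S (kap * Δ) l).2 = _
      rw [YY_dot_RR S _ l hq0 hr hΔ1]; ring
    · have := hΔ2.neg
      rw [neg_neg] at this
      rw [mul_neg]; exact this
  · intro k
    rw [← ctr_eq_cv, bl_sub]
    have e1 : kap ^ (3 * m + 2 + (m + 1)) * YY S (kap * Δ) l k =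
        kap ^ (2 * m + 1) * (kap ^ (m + (m + 1) + 1) * YY S (kap * Δ) l k) := by
      ring
    rw [e1]
    exact (OO L).mul_mem (kap_pow_mem _) (hc1 k).mem
  · rw [← ctr_eq_cv, bl_sub, YY_dot_YY S _ l hq0 hΔ1]
    exact (eqv_rad S).mem
  · refine ⟨q', ?_, hq2⟩
    show (RR S (kap * Δ) l).2 ⬝ᵥ (RR S (kap * Δ) l).2 = _
    rw [RR_q S _ l hq0 hr hΔ1, hq1]

end Pool.Agent.W567.IV
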