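import Pool.Agent.W567.IV.Back

/-! Backward construction of special chains: the recursion. -/

set_option autoImplicit false

open scoped Classical

set_option linter.unusedSectionVars false

namespace Pool.Agent.W567.IV

variable {n : ℕ} {L : Type} [Field L] [Algebra ℂ L]

/-- small states: the reflections in spheres concentric with `S'` -/
structure Sm (w : Fin n → L) (S' : Sph n) (t0 s0 α : L)
    (l : Line n (LaurentSeries L)) : Prop where
  hα : α ≠ 0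
  hv : ∀ k, Eqv (l.2 k) (α * w k)
  hB : ∃ B, (l.1 - S'.ctr (LaurentSeries L)) ⬝ᵥ l.2 = kap * B ∧ Eqv B (-s0)
  hY : ∀ k, Eqv (kap * (l.1 - S'.ctr (LaurentSeries L)) k) (-(s0 + t0) * α * w k)
  hD : ∃ D ∈ OO L, DD S' l = kap ^ 3 * D
  hq : ∃ q', l.2 ⬝ᵥ l.2 = kap ^ 2 * q' ∧ Eqv q' 1

lemma Sm.pre {w : Fin n → L} {S' : Sph n} {t0 s0 α : L} {l : Line n (LaurentSeries L)}
    (h : Sm w S' t0 s0 α l) : Pre w S'.O 0 α l := by
  have hk : (kap : LaurentSeries L) ≠ 0 := kap_ne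
  refine ⟨h.hα, ?_, ?_, ?_, ?_, h.hq⟩
  · intro k; simpa using h.hv k
  · obtain ⟨B, h1, h2⟩ := h.hB
    rw [← ctr_eq_cv, h1, pow_zero, one_mul]
    exact eqv_kap_mul h2.mem
  · intro k
    rw [← ctr_eq_cv]
    simpa using (h.hY k).mem
  · rw [← ctr_eq_cv]
    obtain ⟨B, h1, h2⟩ := h.hB
    obtain ⟨D, hD1, hD2⟩ := h.hD
    obtain ⟨q', hq1, hq2⟩ := h.hq
    have hq0 : q' ≠ 0 := hq2.ne one_ne_zero
    unfold DD at hD2
    rw [h1, hq1] at hD2
    have e1 : (l.1 - S'.ctr (LaurentSeries L)) ⬝ᵥ (l.1 - S'.ctr (LaurentSeries L)) =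
        (B ^ 2 - kap * D) * q'⁻¹ + S'.rad _ := by
      have h3 : kap ^ 2 * (B ^ 2 - kap * D - q' * ((l.1 - S'.ctr (LaurentSeries L)) ⬝ᵥ
          (l.1 - S'.ctr (LaurentSeries L)) - S'.rad _)) = 0 := by
        linear_combination hD2
      have h4 := (mul_eq_zero.mp h3).resolve_left (pow_ne_zero _ hk)
      field_simp
      linear_combination (-1 : LaurentSeries L) * h4
    rw [e1]
    exact (OO L).add_mem ((OO L).mul_mem ((OO L).sub_mem (Subring.pow_mem _ h2.mem 2)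
      ((OO L).mul_mem kap_mem hD1)) (hq2.inv one_ne_zero).mem) (eqv_rad S').mem

/-- reflection in a concentric sphere, small states -/
lemma same_small (hsq : S_sqrt) [CharZero L] {w : Fin n → L} {S' : Sph n} {t0 s0 s1 α : L}
    {l : Line n (LaurentSeries L)} (S : Sph n) (hρ : 0 < S.ρ) (hO : S.O = S'.O)
    (h : Sm w S' t0 s0 α l) (ht0 : t0 ^ 2 = - radL L S') (hs1 : s1 ^ 2 = radL L S - radL L S')
    (hs10 : s1 ≠ 0) :
    ∃ δ α1, δ ^ 2 = DD S l ∧ (∃ Δ, -δ = kap * Δ ∧ Eqv Δ (-s1)) ∧ Sm w S' t0 s1 α1 (bl S δ l) := by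
  obtain ⟨B, hB1, hB2⟩ := h.hB
  obtain ⟨q', hq1, hq2⟩ := h.hq
  obtain ⟨D, hD1, hD2⟩ := h.hD
  have hρL := radL_ne (L := L) S hρ
  have hr : S.rad (LaurentSeries L) ≠ 0 := rad_ne S hρ
  have hq0 := q_ne h.hq
  have hctr : S.ctr (LaurentSeries L) = S'.ctr (LaurentSeries L) := by
    unfold Sph.ctr; rw [hO]
  have hD : DD S l = kap ^ 2 * (kap * D + q' * (S.rad _ - S'.rad _)) := by
    rw [DD_conc (S := S') S hO l, hD2, hq1]; ring
  have hG : Eqv (kap ^ (2 * 0) * (kap * D + q' * (S.rad _ - S'.rad _))) (s1 ^ 2) := by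
    rw [hs1, mul_zero, pow_zero, one_mul]
    have e2 : radL L S - radL L S' = 0 + 1 * (radL L S - radL L S') := by ring
    rw [e2]
    exact (eqv_kap_mul hD1).add (hq2.mul ((eqv_rad S).sub (eqv_rad S')))
  obtain ⟨Δ, hΔ1, hΔ2⟩ := root_exists hsq 0 hD hG hs10
  have hcore := step_core S hρ l w 0 0 α (-s0) s1 (-(s0 + t0) * α) q' B Δ hq1 hq2
    (by intro k; simpa using h.hv k) (by rw [hctr]; exact hB1) (by simpa using hB2)
    (by
      intro k
      rw [hctr]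
      simpa using h.hY k) hΔ2
  obtain ⟨hc1, hc2⟩ := hcore
  rw [if_pos rfl] at hc2
  have hΔ3 : Eqv Δ s1 := by simpa using hΔ2
  have hprod : (s1 - t0) * (s1 + t0) = radL L S := by linear_combination hs1 - ht0
  have hne1 : s1 - t0 ≠ 0 := fun h0 => hρL (by rw [← hprod, h0, zero_mul])
  have hne2 : s1 + t0 ≠ 0 := fun h0 => hρL (by rw [← hprod, h0, mul_zero])
  set α1 : L := α - 2 * s1 * (-(s0 + t0) * α + (s1 - -s0) * α) / radL L S with hα1def
  have hα1 : α1 * (s1 + t0) = α * (t0 - s1) := by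
    rw [hα1def, ← hprod]
    field_simp
    ring
  have hα10 : α1 ≠ 0 := by
    intro h0
    rw [h0, zero_mul] at hα1
    rcases mul_eq_zero.mp hα1.symm with h1 | h1
    · exact h.hα h1
    · exact hne1 (by linear_combination -h1)
  refine ⟨kap * Δ, α1, hΔ1, ⟨-Δ, by ring, hΔ3.neg⟩, ⟨hα10, ?_, ?_, ?_, ?_, ?_⟩⟩
  · intro k
    show Eqv ((RR S (kap * Δ) l).2 k) _
    simpa using hc2 k
  · refine ⟨-Δ, ?_, hΔ3.neg⟩
    rw [← hctr, bl_sub]
    show YY S (kap * Δ) l ⬝ᵥ (RR S (kap * Δ) l).2 = _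
    rw [YY_dot_RR S _ l hq0 hr hΔ1]; ring
  · intro k
    rw [← hctr, bl_sub]
    have h1 := hc1 k
    have e1 : -(s1 + t0) * α1 * w k = (-(s0 + t0) * α + (s1 - -s0) * α) * w k := by
      linear_combination (-w k) * hα1
    rw [e1]
    simpa using h1
  · refine ⟨D, hD1, ?_⟩
    rw [DD_bl, RR_DD_conc _ l S S' hO.symm hq0 hr hΔ1, hD2]
  · refine ⟨q', ?_, hq2⟩
    show (RR S (kap * Δ) l).2 ⬝ᵥ (RR S (kap * Δ) l).2 = _
    rw [RR_q S _ l hq0 hr hΔ1, hq1]

/-- a property of all the members of the first block with centre `O` -/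
noncomputable def blkA {F : Type} (O : Fin n → ℝ) (P : Sph n → F → Prop) : Ch n F → Prop
  | [] => True
  | (p :: c) => p.1.O = O → (P p.1 p.2 ∧ blkA O P c)

lemma blkA_mono {F : Type} {O : Fin n → ℝ} {P Q : Sph n → F → Prop}
    (h : ∀ S δ, S.O = O → P S δ → Q S δ) (c : Ch n F) (hc : blkA O P c) : blkA O Q c := by
  induction c with
  | nil => trivial
  | cons p c ih =>
    intro hO
    obtain ⟨h1, h2⟩ := hc hO
    exact ⟨h _ _ hO h1, ih h2⟩

lemma compat_of_blkA {F : Type} [Field F] [Algebra ℂ F] {S : Sph n} {δ : F}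
    {P : Sph n → F → Prop}
    (h : ∀ T δ', T.O = S.O → T.ρ = S.ρ → P T δ' → δ' = δ) (c : Ch n F) (hc : blkA S.O P c) :
    compat S δ c := by
  induction c with
  | nil => trivial
  | cons p c ih =>
    intro hO
    obtain ⟨h1, h2⟩ := hc hO
    exact ⟨fun hρ => h _ _ hO hρ h1, ih h2⟩

/-- one more backward step -/
lemma extend {F : Type} [Field F] [Algebra ℂ F] (S : Sph n) (hρ : 0 < S.ρ) (l : Line n F)
    (hq : l.2 ⬝ᵥ l.2 ≠ 0) (δ : F) (hδ : δ ^ 2 = DD S l) (c1 : Ch n F) (l1 : Line n F)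
    (hW : ∀ p ∈ c1, 0 < p.1.ρ) (hv : Val c1 l1) (he : endl c1 l1 = bl S δ l)
    (hq1 : l1.2 ⬝ᵥ l1.2 ≠ 0)
    (hc : compat S (-δ) c1) :
    ∃ s, Val ((S, -δ) :: c1) (shiftL s l1) ∧ endl ((S, -δ) :: c1) (shiftL s l1) = l := by
  have hr : S.rad F ≠ 0 := rad_ne S hρ
  refine ⟨-tau S δ l, ?_, ?_⟩
  · refine ⟨Val_shift c1 _ l1 hW hq1 hv, ?_, hc⟩
    rw [endl_shift c1 _ l1 hW hq1 hv, DD_shift, he, DD_bl, RR_DD S δ l hq hr hδ]
    ring
  · show RR S (-δ) (endl c1 (shiftL _ l1)) = l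
    rw [endl_shift c1 _ l1 hW hq1 hv, he, ← RR_eq_shift, RR_inv S δ l hq hr hδ]

/-- the centres of a set are separated by `w` -/
def Sep (w : Fin n → L) (A : Set (Fin n → ℝ)) : Prop :=
  ∀ a ∈ A, ∀ b ∈ A, a ≠ b → (cv L a - cv L b) ⬝ᵥ w ≠ 0

theorem back_large (hsq : S_sqrt) [CharZero L] (w : Fin n → L) (A : Set (Fin n → ℝ))
    (hA : Sep w A) : ∀ (W : List (Sph n)), (∀ T ∈ W, 0 < T.ρ ∧ T.O ∈ A) →
    ∀ (O : Fin n → ℝ), O ∈ A → ∀ (m e : ℕ) (α β : L) (l : Line n (LaurentSeries L)),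
      Lg w O m e α β l →
      ∃ (c : Ch n (LaurentSeries L)) (l0 : Line n (LaurentSeries L)), c.map Prod.fst = W ∧
        Val c l0 ∧ endl c l0 = l ∧ l0.2 ⬝ᵥ l0.2 ≠ 0 ∧
        blkA O (fun S δ => δ ^ 2 = DD S l ∧ ∃ Δ, δ = kap * Δ ∧ Eqv (kap ^ e * Δ) β) c ∧
        ∃ (M : ℕ) (α' : L), 1 ≤ M ∧ α' ≠ 0 ∧ ∀ k, Eqv (kap ^ M * l0.2 k) (α' * w k) := by
  intro W
  induction W with
  | nil =>
    intro _ O _ m e α β l h
    exact ⟨[], l, rfl, trivial, rfl, q_ne h.hq, trivial, m, α, le_trans h.he h.hem, h.hα, h.hv⟩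
  | cons S W ih =>
    intro hW O hO m e α β l h
    have hS := hW S (List.mem_cons_self)
    have hW' : ∀ T ∈ W, 0 < T.ρ ∧ T.O ∈ A := fun T hT => hW T (List.mem_cons_of_mem _ hT)
    have hq := q_ne h.hq
    have hr : S.rad (LaurentSeries L) ≠ 0 := rad_ne S hS.1
    by_cases hSO : S.O = O
    · subst hSO
      obtain ⟨δ, α1, h1, ⟨Δ, h2, h3⟩, h4⟩ := same_large hsq S hS.1 h
      obtain ⟨c1, l1, g1, g2, g3, g4, g5, M, α', g6, g7, g8⟩ := ih hW' S.O hO _ _ _ _ _ h4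
      have hWc : ∀ p ∈ c1, 0 < p.1.ρ := by
        intro p hp
        exact (hW' p.1 (by rw [← g1]; exact List.mem_map_of_mem hp)).1
      have hDS : ∀ T : Sph n, T.O = S.O → DD T (bl S δ l) = DD T l := by
        intro T hT
        rw [DD_bl, RR_DD_conc _ l S T hT hq hr h1]
      have hcomp : compat S (-δ) c1 := by
        refine compat_of_blkA ?_ c1 g5
        intro T δ' hT1 hT2 ⟨hT3, Δ', hT4, hT5⟩
        have hTS : DD T (bl S δ l) = δ ^ 2 := by
          rw [hDS T hT1, h1]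
          have e1 : T.ctr (LaurentSeries L) = S.ctr (LaurentSeries L) := by
            unfold Sph.ctr; rw [hT1]
          have e2 : T.rad (LaurentSeries L) = S.rad (LaurentSeries L) := by
            unfold Sph.rad; rw [hT2]
          unfold DD; rw [e1, e2]
        have hk : (kap : LaurentSeries L) ≠ 0 := kap_ne
        have h5 : (kap ^ e * Δ') ^ 2 = (kap ^ e * Δ) ^ 2 := by
          have h6 : (kap * Δ') ^ 2 = (kap * Δ) ^ 2 := by
            rw [← hT4, ← h2, hT3, hTS]; ring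
          have h7 : kap ^ 2 * (Δ' ^ 2 - Δ ^ 2) = 0 := by linear_combination h6
          have h8 := (mul_eq_zero.mp h7).resolve_left (pow_ne_zero _ hk)
          linear_combination kap ^ (2 * e) * h8
        have h9 := root_unique h.hβ h5 hT5 h3
        have h10 := mul_left_cancel₀ (pow_ne_zero e hk) h9
        rw [hT4, h2, h10]
      obtain ⟨s, k1, k2⟩ := extend S hS.1 l hq δ h1 c1 l1 hWc g2 g3 g4 hcomp
      refine ⟨(S, -δ) :: c1, shiftL s l1, by simp only [List.map_cons, g1], k1, k2, g4, ?_,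
        M, α', g6, g7, g8⟩
      intro _
      refine ⟨⟨by rw [neg_sq, h1], Δ, h2, h3⟩, blkA_mono ?_ c1 g5⟩
      intro T δ' hT ⟨hT1, hT2⟩
      exact ⟨by rw [hT1, hDS T hT], hT2⟩
    · obtain ⟨δ, α1, β1, h1, ⟨Δ, h2, h3⟩, h4⟩ := diff_large hsq S hS.1 h.pre
        (hA O hO S.O hS.2 (Ne.symm hSO))
      obtain ⟨c1, l1, g1, g2, g3, g4, g5, M, α', g6, g7, g8⟩ := ih hW' S.O hS.2 _ _ _ _ _ h4
      have hWc : ∀ p ∈ c1, 0 < p.1.ρ := by
        intro p hp
        exact (hW' p.1 (by rw [← g1]; exact List.mem_map_of_mem hp)).1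
      have hDS : ∀ T : Sph n, T.O = S.O → DD T (bl S δ l) = DD T l := by
        intro T hT
        rw [DD_bl, RR_DD_conc _ l S T hT hq hr h1]
      have hcomp : compat S (-δ) c1 := by
        refine compat_of_blkA ?_ c1 g5
        intro T δ' hT1 hT2 ⟨hT3, Δ', hT4, hT5⟩
        have hTS : DD T (bl S δ l) = δ ^ 2 := by
          rw [hDS T hT1, h1]
          have e1 : T.ctr (LaurentSeries L) = S.ctr (LaurentSeries L) := by
            unfold Sph.ctr; rw [hT1]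
          have e2 : T.rad (LaurentSeries L) = S.rad (LaurentSeries L) := by
            unfold Sph.rad; rw [hT2]
          unfold DD; rw [e1, e2]
        have hk : (kap : LaurentSeries L) ≠ 0 := kap_ne
        have h5 : (kap ^ (m + 1) * Δ') ^ 2 = (kap ^ (m + 1) * Δ) ^ 2 := by
          have h6 : (kap * Δ') ^ 2 = (kap * Δ) ^ 2 := by
            rw [← hT4, ← h2, hT3, hTS]; ring
          have h7 : kap ^ 2 * (Δ' ^ 2 - Δ ^ 2) = 0 := by linear_combination h6
          have h8 := (mul_eq_zero.mp h7).resolve_left (pow_ne_zero _ hk)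
          linear_combination kap ^ (2 * (m + 1)) * h8
        have h9 := root_unique h4.hβ h5 hT5 h3
        have h10 := mul_left_cancel₀ (pow_ne_zero (m + 1) hk) h9
        rw [hT4, h2, h10]
      obtain ⟨s, k1, k2⟩ := extend S hS.1 l hq δ h1 c1 l1 hWc g2 g3 g4 hcomp
      refine ⟨(S, -δ) :: c1, shiftL s l1, by simp only [List.map_cons, g1], k1, k2, g4, ?_,
        M, α', g6, g7, g8⟩
      intro hcon
      exact absurd hcon hSO

/-- one step from a `Pre` state to a sphere with another centre and then the rest -/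
theorem back_pre (hsq : S_sqrt) [CharZero L] (w : Fin n → L) (A : Set (Fin n → ℝ))
    (hA : Sep w A) (S : Sph n) (W : List (Sph n)) (hS : 0 < S.ρ ∧ S.O ∈ A)
    (hW' : ∀ T ∈ W, 0 < T.ρ ∧ T.O ∈ A)
    (O : Fin n → ℝ) (hO : O ∈ A) (hSO : S.O ≠ O) (m : ℕ) (α : L)
    (l : Line n (LaurentSeries L)) (h : Pre w O m α l) :
      ∃ (c : Ch n (LaurentSeries L)) (l0 : Line n (LaurentSeries L)), c.map Prod.fst = S :: W ∧
        Val c l0 ∧ endl c l0 = l ∧ l0.2 ⬝ᵥ l0.2 ≠ 0 ∧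
        ∃ (M : ℕ) (α' : L), 1 ≤ M ∧ α' ≠ 0 ∧ ∀ k, Eqv (kap ^ M * l0.2 k) (α' * w k) := by
  have hq := q_ne h.hq
  have hr : S.rad (LaurentSeries L) ≠ 0 := rad_ne S hS.1
  obtain ⟨δ, α1, β1, h1, ⟨Δ, h2, h3⟩, h4⟩ := diff_large hsq S hS.1 h
    (hA O hO S.O hS.2 (Ne.symm hSO))
  obtain ⟨c1, l1, g1, g2, g3, g4, g5, M, α', g6, g7, g8⟩ :=
    back_large hsq w A hA W hW' S.O hS.2 _ _ _ _ _ h4
  have hWc : ∀ p ∈ c1, 0 < p.1.ρ := by
    intro p hp
    exact (hW' p.1 (by rw [← g1]; exact List.mem_map_of_mem hp)).1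
  have hDS : ∀ T : Sph n, T.O = S.O → DD T (bl S δ l) = DD T l := by
    intro T hT
    rw [DD_bl, RR_DD_conc _ l S T hT hq hr h1]
  have hcomp : compat S (-δ) c1 := by
    refine compat_of_blkA ?_ c1 g5
    intro T δ' hT1 hT2 ⟨hT3, Δ', hT4, hT5⟩
    have hTS : DD T (bl S δ l) = δ ^ 2 := by
      rw [hDS T hT1, h1]
      have e1 : T.ctr (LaurentSeries L) = S.ctr (LaurentSeries L) := by
        unfold Sph.ctr; rw [hT1]
      have e2 : T.rad (LaurentSeries L) = S.rad (LaurentSeries L) := by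
        unfold Sph.rad; rw [hT2]
      unfold DD; rw [e1, e2]
    have hk : (kap : LaurentSeries L) ≠ 0 := kap_ne
    have h5 : (kap ^ (m + 1) * Δ') ^ 2 = (kap ^ (m + 1) * Δ) ^ 2 := by
      have h6 : (kap * Δ') ^ 2 = (kap * Δ) ^ 2 := by
        rw [← hT4, ← h2, hT3, hTS]; ring
      have h7 : kap ^ 2 * (Δ' ^ 2 - Δ ^ 2) = 0 := by linear_combination h6
      have h8 := (mul_eq_zero.mp h7).resolve_left (pow_ne_zero _ hk)
      linear_combination kap ^ (2 * (m + 1)) * h8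
    have h9 := root_unique h4.hβ h5 hT5 h3
    have h10 := mul_left_cancel₀ (pow_ne_zero (m + 1) hk) h9
    rw [hT4, h2, h10]
  obtain ⟨s, k1, k2⟩ := extend S hS.1 l hq δ h1 c1 l1 hWc g2 g3 g4 hcomp
  exact ⟨(S, -δ) :: c1, shiftL s l1, by simp only [List.map_cons, g1], k1, k2, g4,
    M, α', g6, g7, g8⟩

theorem back_small (hsq : S_sqrt) [CharZero L] (w : Fin n → L) (A : Set (Fin n → ℝ))
    (hA : Sep w A) (S' : Sph n) (hS'A : S'.O ∈ A) (t0 : L) (ht0 : t0 ^ 2 = - radL L S')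
    (root : ℝ → L) (hroot : ∀ S : Sph n, (root S.ρ) ^ 2 = radL L S - radL L S')
    (hroot0 : ∀ S : Sph n, S.ρ ≠ S'.ρ → root S.ρ ≠ 0) :
    ∀ (W : List (Sph n)), (∀ T ∈ W, 0 < T.ρ ∧ T.O ∈ A) → Fresh S' W →
    ∀ (s0 α : L) (l : Line n (LaurentSeries L)), Sm w S' t0 s0 α l →
      ∃ (c : Ch n (LaurentSeries L)) (l0 : Line n (LaurentSeries L)), c.map Prod.fst = W ∧
        Val c l0 ∧ endl c l0 = l ∧ l0.2 ⬝ᵥ l0.2 ≠ 0 ∧
        blkA S'.O (fun S δ => S.ρ ≠ S'.ρ ∧ δ ^ 2 = DD S l ∧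
          ∃ Δ, δ = kap * Δ ∧ Eqv Δ (-root S.ρ)) c ∧
        (∀ T, W.head? = some T → T.O ≠ S'.O →
          ∃ (M : ℕ) (α' : L), 1 ≤ M ∧ α' ≠ 0 ∧ ∀ k, Eqv (kap ^ M * l0.2 k) (α' * w k)) := by
  intro W
  induction W with
  | nil =>
    intro _ _ s0 α l h
    exact ⟨[], l, rfl, trivial, rfl, q_ne h.hq, trivial, by simp⟩
  | cons S W ih =>
    intro hW hF s0 α l h
    have hS := hW S (List.mem_cons_self)
    have hW' : ∀ T ∈ W, 0 < T.ρ ∧ T.O ∈ A := fun T hT => hW T (List.mem_cons_of_mem _ hT)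
    have hq := q_ne h.hq
    have hr : S.rad (LaurentSeries L) ≠ 0 := rad_ne S hS.1
    by_cases hSO : S.O = S'.O
    · obtain ⟨hρne, hF'⟩ := hF hSO
      obtain ⟨δ, α1, h1, ⟨Δ, h2, h3⟩, h4⟩ := same_small hsq S hS.1 hSO h ht0 (hroot S)
        (hroot0 S hρne)
      obtain ⟨c1, l1, g1, g2, g3, g4, g5, g6⟩ := ih hW' hF' _ _ _ h4
      have hWc : ∀ p ∈ c1, 0 < p.1.ρ := by
        intro p hp
        exact (hW' p.1 (by rw [← g1]; exact List.mem_map_of_mem hp)).1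
      have hDS : ∀ T : Sph n, T.O = S.O → DD T (bl S δ l) = DD T l := by
        intro T hT
        rw [DD_bl, RR_DD_conc _ l S T hT hq hr h1]
      have hcomp : compat S (-δ) c1 := by
        rw [← hSO] at g5
        refine compat_of_blkA ?_ c1 g5
        intro T δ' hT1 hT2 ⟨_, hT3, Δ', hT4, hT5⟩
        have hTS : DD T (bl S δ l) = δ ^ 2 := by
          rw [hDS T hT1, h1]
          have e1 : T.ctr (LaurentSeries L) = S.ctr (LaurentSeries L) := by
            unfold Sph.ctr; rw [hT1]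
          have e2 : T.rad (LaurentSeries L) = S.rad (LaurentSeries L) := by
            unfold Sph.rad; rw [hT2]
          unfold DD; rw [e1, e2]
        have hk : (kap : LaurentSeries L) ≠ 0 := kap_ne
        have h5 : Δ' ^ 2 = Δ ^ 2 := by
          have h6 : (kap * Δ') ^ 2 = (kap * Δ) ^ 2 := by
            rw [← hT4, ← h2, hT3, hTS]; ring
          have h7 : kap ^ 2 * (Δ' ^ 2 - Δ ^ 2) = 0 := by linear_combination h6
          have h8 := (mul_eq_zero.mp h7).resolve_left (pow_ne_zero _ hk)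
          linear_combination h8
        rw [hT2] at hT5
        have h9 := root_unique (neg_ne_zero.mpr (hroot0 S hρne)) h5 hT5 h3
        rw [hT4, h2, h9]
      obtain ⟨s, k1, k2⟩ := extend S hS.1 l hq δ h1 c1 l1 hWc g2 g3 g4 hcomp
      refine ⟨(S, -δ) :: c1, shiftL s l1, by simp only [List.map_cons, g1], k1, k2, g4, ?_, ?_⟩
      · intro _
        refine ⟨⟨hρne, by rw [neg_sq, h1], Δ, h2, h3⟩, blkA_mono ?_ c1 g5⟩
        intro T δ' hT ⟨hT0, hT1, hT2⟩
        exact ⟨hT0, by rw [hT1, hDS T (hT.trans hSO.symm)], hT2⟩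
      · intro T hT hT'
        simp only [List.head?_cons, Option.some.injEq] at hT
        rw [← hT] at hT'
        exact absurd hSO hT'
    · obtain ⟨c, l0, k1, k2, k3, k4, k5⟩ := back_pre hsq w A hA S W hS hW' S'.O hS'A hSO 0 α l
        h.pre
      refine ⟨c, l0, k1, k2, k3, k4, ?_, fun _ _ _ => k5⟩
      match c, k1 with
      | (p :: c), k1 =>
        simp only [List.map_cons, List.cons.injEq] at k1
        intro hcon
        rw [k1.1] at hcon
        exact absurd hcon hSO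

end Pool.Agent.W567.IV
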