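import Pool.Agent.W567.IV.Stm

/-! Ivrii's conjecture for billiards with spherical and flat mirrors: statements of the second round. -/

set_option autoImplicit false

open scoped Classical

namespace Pool.Agent.W567.IV

variable {n : ℕ}

/-- weakly valid chains: no compatibility inside blocks -/
noncomputable def WVal {F : Type} [Field F] [Algebra ℂ F] : Ch n F → Line n F → Prop
  | [], _ => True
  | (p :: c), l => WVal c l ∧ p.2 ^ 2 = DD p.1 (endl c l)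

/-- a flat mirror `{x : ν ⬝ᵥ x = h}` -/
structure Flat (n : ℕ) where
  ν : Fin n → ℝ
  h : ℝ

/-- a mirror: a sphere or a hyperplane -/
abbrev Mir (n : ℕ) := Sph n ⊕ Flat n

/-- the matrix of the reflection in the hyperplane `ν ⬝ᵥ x = 0` (for `ν ⬝ᵥ ν = 1`) -/
noncomputable def Hou (ν : Fin n → ℝ) : Matrix (Fin n) (Fin n) ℝ :=
  1 - (2 : ℝ) • Matrix.vecMulVec ν ν

/-- unfolding: the word of the unfolded spheres (last one at the head) and the affine isometry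
`x ↦ A x + b` accumulated by the flat mirrors `D 1, ..., D k` -/
noncomputable def unf (D : ℕ → Mir n) : ℕ →
    List (Sph n) × Matrix (Fin n) (Fin n) ℝ × (Fin n → ℝ)
  | 0 => ([], 1, 0)
  | (k + 1) =>
    match D (k + 1) with
    | Sum.inl S => (⟨(unf D k).2.1.mulVec S.O + (unf D k).2.2, S.ρ⟩ :: (unf D k).1,
        (unf D k).2.1, (unf D k).2.2)
    | Sum.inr H => ((unf D k).1, (unf D k).2.1 * Hou H.ν,
        (unf D k).2.1.mulVec ((2 * H.h) • H.ν) + (unf D k).2.2)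

/-- the point lies on the mirror and `f = 0` is the mirror near the point -/
def OnMir (f : EuclideanSpace ℝ (Fin n) → ℝ) (p : EuclideanSpace ℝ (Fin n)) : Mir n → Prop
  | Sum.inl S => 0 < S.ρ ∧ ∀ᶠ x in nhds p, f x = 0 ↔ ∑ i, (x i - S.O i) ^ 2 = S.ρ
  | Sum.inr H => H.ν ⬝ᵥ H.ν = 1 ∧ ∀ᶠ x in nhds p, f x = 0 ↔ ∑ i, H.ν i * x i = H.h

/-- IV-DYN2: a periodic billiard orbit with spherical and flat bounce points gives, after unfolding,
a chain which is closed up to the accumulated isometry. `T` is the length of the orbit. -/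
def S_dyn2 : Prop :=
  ∀ (n : ℕ) (f : EuclideanSpace ℝ (Fin n) → ℝ), Differentiable ℝ f →
    (∀ x, f x = 0 → gradient f x ≠ 0) →
    ∀ (N : ℕ), 1 ≤ N → ∀ (p u : ℕ → EuclideanSpace ℝ (Fin n)) (D : ℕ → Mir n),
      p N = p 0 → u N = u 0 → D N = D 0 →
      (∀ k, k < N → f (p k) = 0 ∧ ‖u k‖ = 1 ∧ inner ℝ (u k) (gradient f (p k)) < 0 ∧
        (∃ t : ℝ, 0 < t ∧ p (k + 1) = p k + t • u k) ∧
        u (k + 1) = u k - (2 * inner ℝ (u k) (gradient f (p (k + 1))) /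
                ‖gradient f (p (k + 1))‖ ^ 2) • gradient f (p (k + 1)) ∧
        OnMir f (p k) (D k)) →
      ∃ T : ℝ, 0 < T ∧ ∀ t c : ℝ, 0 < c →
        ∃ ch : Ch n ℂ, ch.map Prod.fst = (unf D N).1 ∧
          WVal ch ((fun k => ((p 0 k + t * u 0 k : ℝ) : ℂ)), (fun k => ((c * u 0 k : ℝ) : ℂ))) ∧
          endl ch ((fun k => ((p 0 k + t * u 0 k : ℝ) : ℂ)), (fun k => ((c * u 0 k : ℝ) : ℂ)))
            = ((fun k => ((((unf D N).2.1.mulVec (fun j => p 0 j - (T - t) * u 0 j) +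
                  (unf D N).2.2) k : ℝ) : ℂ)),
               (fun k => (((unf D N).2.1.mulVec (fun j => c * u 0 j) k : ℝ) : ℂ)))

/-- a real matrix over `F` -/
noncomputable def castM (F : Type) [Field F] [Algebra ℂ F] (A : Matrix (Fin n) (Fin n) ℝ) :
    Matrix (Fin n) (Fin n) F :=
  A.map (fun x => algebraMap ℂ F ((x : ℝ) : ℂ))

/-- IV-GERM2: as `S_germ`, with chains closed up to the linear map `A` -/
def S_germ2 : Prop :=
  ∀ (n : ℕ) (A : Matrix (Fin n) (Fin n) ℝ) (W : List (Sph n)) (I : Type) (l : I → Line n ℂ)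
    (c : I → Ch n ℂ),
    (∀ i, (c i).map Prod.fst = W) → (∀ i, Val (c i) (l i)) →
    (∀ i, (endl (c i) (l i)).2 = (castM ℂ A).mulVec (l i).2) →
    (∀ P : MvPolynomial (Fin n ⊕ Fin n) ℂ, P ≠ 0 →
      ∃ i, MvPolynomial.eval (Sum.elim (l i).1 (l i).2) P ≠ 0) →
    ∃ (F : Type) (_ : Field F) (_ : Algebra ℂ F) (l' : Line n F) (c' : Ch n F),
      Gen l' ∧ c'.map Prod.fst = W ∧ Val c' l' ∧ (endl c' l').2 = (castM F A).mulVec l'.2

/-- IV-MEAS2: as `S_meas`, for base points on a hyperplane -/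
def S_meas2 : Prop :=
  ∀ (n : ℕ), 2 ≤ n → ∀ (ν : EuclideanSpace ℝ (Fin n)) (h : ℝ), ‖ν‖ = 1 →
    ∀ (P : MvPolynomial (Fin n ⊕ Fin n) ℂ), P ≠ 0 →
    ∀ Z : Set (EuclideanSpace ℝ (Fin n) × EuclideanSpace ℝ (Fin n)),
      (∀ q ∈ Z, inner ℝ ν q.1 = h ∧ ‖q.2‖ = 1 ∧ inner ℝ ν q.2 ≠ 0 ∧
        ∀ t c : ℝ, 0 < c →
          MvPolynomial.eval (Sum.elim (fun k => ((q.1 k + t * q.2 k : ℝ) : ℂ))
            (fun k => ((c * q.2 k : ℝ) : ℂ))) P = 0) →
      MeasureTheory.Measure.hausdorffMeasure ((2 * n - 2 : ℕ) : ℝ) Z = 0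

/-- IV-SPEC2: special generic chains. -/
def S_spec2 : Prop :=
  ∀ (n : ℕ), 2 ≤ n → ∀ (W : List (Sph n)) (S : Sph n), (∀ T ∈ W, 0 < T.ρ) → 0 < S.ρ →
    Fresh S W →
    ∃ (F : Type) (_ : Field F) (_ : Algebra ℂ F) (l : Line n F) (c : Ch n F),
      Gen l ∧ c.map Prod.fst = W ∧ Val c l ∧ (∀ g : F, g ^ 2 ≠ DD S (endl c l)) ∧
      (∀ T, W.head? = some T → T.O ≠ S.O →
        ∀ A : Matrix (Fin n) (Fin n) ℝ, A.det ≠ 0 → (endl c l).2 ≠ (castM F A).mulVec l.2)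

/-- IV-RED: reduction of weakly valid chains. -/
def S_red : Prop :=
  ∀ (n : ℕ) (F : Type) [Field F] [Algebra ℂ F] (l : Line n F), l.2 ⬝ᵥ l.2 ≠ 0 →
    ∀ c : Ch n F, (∀ p ∈ c, 0 < p.1.ρ) → WVal c l →
      ∃ c' : Ch n F, Val c' l ∧ endl c' l = endl c l ∧
        (c'.map Prod.fst).Sublist (c.map Prod.fst)

end Pool.Agent.W567.IV
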