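import Pool.Agent.W567.IV.Alg
import Pool.Agent.W567.IV.Stm2

/-! Reduction of weakly valid chains. -/

set_option autoImplicit false

open scoped Classical

namespace Pool.Agent.W567.IV

variable {n : ℕ} {F : Type} [Field F] [Algebra ℂ F]

/-- (a multiple of) the foot point vector of the line with respect to the centre -/
noncomputable def ee (S : Sph n) (l : Line n F) : Fin n → F :=
  (l.2 ⬝ᵥ l.2) • (l.1 - S.ctr F) - ((l.1 - S.ctr F) ⬝ᵥ l.2) • l.2

lemma RR_v (S : Sph n) (δ : F) (l : Line n F) (hq : l.2 ⬝ᵥ l.2 ≠ 0) (hr : S.rad F ≠ 0) :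
    (RR S δ l).2 = (1 / (S.rad F * (l.2 ⬝ᵥ l.2))) •
      ((S.rad F * (l.2 ⬝ᵥ l.2) - 2 * δ ^ 2) • l.2 - (2 * δ) • ee S l) := by
  funext k
  simp only [RR, YY, tau, ee, Pi.sub_apply, Pi.smul_apply, Pi.add_apply, smul_eq_mul]
  field_simp
  ring

lemma RR_u (S : Sph n) (δ : F) (l : Line n F) :
    (RR S δ l).1 - S.ctr F = YY S δ l - tau S δ l • (RR S δ l).2 := by
  rw [RR_sub_ctr]
  have h : l.1 - S.ctr F = YY S δ l - tau S δ l • l.2 := by simp [YY]
  rw [h]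
  funext k
  simp only [RR, Pi.sub_apply, Pi.smul_apply, Pi.add_apply, smul_eq_mul]
  ring

lemma RR_e (S : Sph n) (δ : F) (l : Line n F) (hq : l.2 ⬝ᵥ l.2 ≠ 0) (hr : S.rad F ≠ 0)
    (hD : δ ^ 2 = DD S l) :
    ee S (RR S δ l) = ee S l + δ • l.2 + δ • (RR S δ l).2 := by
  unfold ee
  rw [RR_q S δ l hq hr hD, RR_b S δ l hq hr hD, RR_u]
  funext k
  simp only [YY, tau, Pi.sub_apply, Pi.smul_apply, Pi.add_apply, smul_eq_mul]
  field_simp
  ring

lemma RR_e' (S : Sph n) (δ : F) (l : Line n F) (hq : l.2 ⬝ᵥ l.2 ≠ 0) (hr : S.rad F ≠ 0)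
    (hD : δ ^ 2 = DD S l) :
    ee S (RR S δ l) = (1 / (S.rad F * (l.2 ⬝ᵥ l.2))) •
      ((S.rad F * (l.2 ⬝ᵥ l.2) - 2 * δ ^ 2) • ee S l -
        (2 * δ * (δ ^ 2 - S.rad F * (l.2 ⬝ᵥ l.2))) • l.2) := by
  rw [RR_e S δ l hq hr hD, RR_v S δ l hq hr]
  funext k
  simp only [Pi.sub_apply, Pi.smul_apply, Pi.add_apply, smul_eq_mul]
  field_simp
  ring

lemma ee_congr (S T : Sph n) (h : T.O = S.O) (l : Line n F) : ee T l = ee S l := by
  have : T.ctr F = S.ctr F := by unfold Sph.ctr; rw [h]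
  unfold ee; rw [this]

lemma u_eq (S : Sph n) (l : Line n F) (hq : l.2 ⬝ᵥ l.2 ≠ 0) :
    l.1 = S.ctr F + (1 / (l.2 ⬝ᵥ l.2)) • (ee S l + ((l.1 - S.ctr F) ⬝ᵥ l.2) • l.2) := by
  funext k
  simp only [ee, Pi.sub_apply, Pi.smul_apply, Pi.add_apply, smul_eq_mul]
  field_simp
  ring

lemma RR_comm (S T : Sph n) (h : T.O = S.O) (δ ε : F) (l : Line n F) (hq : l.2 ⬝ᵥ l.2 ≠ 0)
    (hrS : S.rad F ≠ 0) (hrT : T.rad F ≠ 0) (hS : δ ^ 2 = DD S l) (hT : ε ^ 2 = DD T l) :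
    RR S δ (RR T ε l) = RR T ε (RR S δ l) := by
  have hctr : T.ctr F = S.ctr F := by unfold Sph.ctr; rw [h]
  have hqT := RR_q T ε l hq hrT hT
  have hqS := RR_q S δ l hq hrS hS
  have hq1 : (RR T ε l).2 ⬝ᵥ (RR T ε l).2 ≠ 0 := by rw [hqT]; exact hq
  have hq2 : (RR S δ l).2 ⬝ᵥ (RR S δ l).2 ≠ 0 := by rw [hqS]; exact hq
  have hS' : δ ^ 2 = DD S (RR T ε l) := by
    rw [RR_DD_conc ε l T S h.symm hq hrT hT, hS]
  have hT' : ε ^ 2 = DD T (RR S δ l) := by
    rw [RR_DD_conc δ l S T h hq hrS hS, hT]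
  have hrel : ε ^ 2 = δ ^ 2 + (l.2 ⬝ᵥ l.2) * (T.rad F - S.rad F) := by
    rw [hT, hS, DD_conc S T h]
  have hv : (RR S δ (RR T ε l)).2 = (RR T ε (RR S δ l)).2 := by
    rw [RR_v S δ _ hq1 hrS, RR_v T ε _ hq2 hrT, hqT, hqS,
      ee_congr T S h.symm, RR_e' T ε l hq hrT hT, ee_congr S T h (RR S δ l), RR_e' S δ l hq hrS hS,
      RR_v S δ _ hq hrS, RR_v T ε _ hq hrT, ee_congr S T h l]
    funext k
    simp only [Pi.sub_apply, Pi.smul_apply, smul_eq_mul]
    field_simp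
    linear_combination (4 * δ * ε * l.2 k) * hrel
  have he : ee S (RR S δ (RR T ε l)) = ee S (RR T ε (RR S δ l)) := by
    rw [RR_e' S δ _ hq1 hrS hS', ← ee_congr S T h (RR T ε (RR S δ l)), RR_e' T ε _ hq2 hrT hT',
      hqT, hqS,
      ee_congr S T h (RR S δ l), RR_e' S δ _ hq hrS hS,
      ← ee_congr S T h (RR T ε l), RR_e' T ε _ hq hrT hT,
      ee_congr S T h l, RR_v S δ _ hq hrS, RR_v T ε _ hq hrT, ee_congr S T h l]
    funext k
    simp only [Pi.sub_apply, Pi.smul_apply, smul_eq_mul]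
    field_simp
    linear_combination (-4 * δ * ε * ee S l k) * hrel
  have hb : ((RR S δ (RR T ε l)).1 - S.ctr F) ⬝ᵥ (RR S δ (RR T ε l)).2 =
      ((RR T ε (RR S δ l)).1 - S.ctr F) ⬝ᵥ (RR T ε (RR S δ l)).2 := by
    rw [RR_b S δ _ hq1 hrS hS', ← hctr, RR_b T ε _ hq hrT hT, RR_b T ε _ hq2 hrT hT', hctr,
      RR_b S δ _ hq hrS hS]
    ring
  refine Prod.ext ?_ hv
  have hqa : (RR S δ (RR T ε l)).2 ⬝ᵥ (RR S δ (RR T ε l)).2 ≠ 0 := by
    rw [RR_q S δ _ hq1 hrS hS']; exact hq1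
  have hqb : (RR T ε (RR S δ l)).2 ⬝ᵥ (RR T ε (RR S δ l)).2 ≠ 0 := by
    rw [RR_q T ε _ hq2 hrT hT']; exact hq2
  rw [u_eq S (RR S δ (RR T ε l)) hqa, u_eq S (RR T ε (RR S δ l)) hqb, he, hb, hv]

lemma RR_congr (S T : Sph n) (h : T.O = S.O) (h' : T.ρ = S.ρ) (δ : F) (l : Line n F) :
    RR T δ l = RR S δ l := by
  have h1 : T.ctr F = S.ctr F := by unfold Sph.ctr; rw [h]
  have h2 : T.rad F = S.rad F := by unfold Sph.rad; rw [h']
  unfold RR YY tau
  rw [h1, h2]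

lemma DD_congr (S T : Sph n) (h : T.O = S.O) (h' : T.ρ = S.ρ) (l : Line n F) :
    DD T l = DD S l := by
  have h1 : T.ctr F = S.ctr F := by unfold Sph.ctr; rw [h]
  have h2 : T.rad F = S.rad F := by unfold Sph.rad; rw [h']
  unfold DD
  rw [h1, h2]

/-- removal of a pair of opposite reflections -/
lemma remove (S : Sph n) (hSρ : 0 < S.ρ) (δ : F) (l : Line n F) (hq : l.2 ⬝ᵥ l.2 ≠ 0) :
    ∀ c : Ch n F, (∀ p ∈ c, 0 < p.1.ρ) → Val c l → δ ^ 2 = DD S (endl c l) →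
      ¬ compat S δ c →
      ∃ c'' : Ch n F, Val c'' l ∧ endl c'' l = RR S δ (endl c l) ∧
        (c''.map Prod.fst).Sublist (c.map Prod.fst) ∧
        ∀ (T : Sph n) (η : F), T.O = S.O → compat T η c → compat T η c'' := by
  intro c
  induction c with
  | nil => intro _ _ _ h; exact absurd trivial h
  | cons q c ih =>
    intro hW hv hδ hc
    have hW' : ∀ p ∈ c, 0 < p.1.ρ := fun p hp => hW p (List.mem_cons_of_mem _ hp)
    have hqρ : 0 < q.1.ρ := hW q (List.mem_cons_self)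
    have hrq : q.1.rad F ≠ 0 := rad_ne _ hqρ
    have hrS : S.rad F ≠ 0 := rad_ne _ hSρ
    have hq1 : (endl c l).2 ⬝ᵥ (endl c l).2 ≠ 0 := by rw [endl_q c l hW' hq hv.1]; exact hq
    have hqO : q.1.O = S.O := by
      by_contra h
      exact hc (fun h' => absurd h' h)
    have hδ1 : δ ^ 2 = DD S (endl c l) := by
      rw [hδ]
      exact RR_DD_conc q.2 (endl c l) q.1 S hqO.symm hq1 hrq hv.2.1
    by_cases hcc : compat S δ c
    · -- the head is opposite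
      have h1 : q.1.ρ = S.ρ ∧ q.2 ≠ δ := by
        by_contra h
        apply hc
        intro _
        refine ⟨fun h' => ?_, hcc⟩
        by_contra h''
        exact h ⟨h', h''⟩
      have h2 : q.2 ^ 2 = δ ^ 2 := by
        rw [hv.2.1, hδ1, DD_congr S q.1 hqO h1.1]
      have h3 : q.2 = -δ := by
        rcases sq_eq_sq_iff_eq_or_eq_neg.mp h2 with h | h
        · exact absurd h h1.2
        · exact h
      refine ⟨c, hv.1, ?_, ?_, ?_⟩
      · show endl c l = RR S δ (RR q.1 q.2 (endl c l))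
        rw [RR_congr S q.1 hqO h1.1, h3]
        have h4 := RR_inv S (-δ) (endl c l) hq1 hrS (by rw [neg_sq, hδ1])
        rw [neg_neg] at h4
        exact h4.symm
      · simp only [List.map_cons]
        exact List.sublist_cons_self _ _
      · intro T η hT hcom
        exact (hcom (hqO.trans hT.symm)).2
    · obtain ⟨c'', g1, g2, g3, g4⟩ := ih hW' hv.1 hδ1 hcc
      refine ⟨q :: c'', ⟨g1, ?_, ?_⟩, ?_, ?_, ?_⟩
      · rw [g2, RR_DD_conc δ (endl c l) S q.1 hqO hq1 hrS hδ1]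
        exact hv.2.1
      · exact g4 q.1 q.2 hqO hv.2.2
      · show RR q.1 q.2 (endl c'' l) = RR S δ (RR q.1 q.2 (endl c l))
        rw [g2]
        exact RR_comm q.1 S hqO.symm q.2 δ (endl c l) hq1 hrq hrS hv.2.1 hδ1
      · simp only [List.map_cons]
        exact List.Sublist.cons_cons _ g3
      · intro T η hT hcom hqT
        obtain ⟨k1, k2⟩ := hcom hqT
        exact ⟨k1, g4 T η hT k2⟩

theorem red : S_red := by
  intro n F _ _ l hq c
  induction c with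
  | nil => intro _ _; exact ⟨[], trivial, rfl, List.Sublist.refl _⟩
  | cons p c ih =>
    intro hW hv
    have hW' : ∀ p ∈ c, 0 < p.1.ρ := fun p hp => hW p (List.mem_cons_of_mem _ hp)
    obtain ⟨c', g1, g2, g3⟩ := ih hW' hv.1
    have hWc' : ∀ p ∈ c', 0 < p.1.ρ := by
      intro q hq'
      have h1 : q.1 ∈ c'.map Prod.fst := List.mem_map_of_mem hq'
      have h2 := g3.subset h1
      rw [List.mem_map] at h2
      obtain ⟨q', h3, h4⟩ := h2
      rw [← h4]; exact hW' q' h3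
    have hδ : p.2 ^ 2 = DD p.1 (endl c' l) := by rw [g2]; exact hv.2
    by_cases hcc : compat p.1 p.2 c'
    · refine ⟨p :: c', ⟨g1, hδ, hcc⟩, ?_, ?_⟩
      · show RR p.1 p.2 (endl c' l) = RR p.1 p.2 (endl c l)
        rw [g2]
      · simp only [List.map_cons]
        exact List.Sublist.cons_cons _ g3
    · obtain ⟨c'', k1, k2, k3, -⟩ := remove p.1 (hW p (List.mem_cons_self)) p.2 l hq c' hWc' g1 hδ hcc
      refine ⟨c'', k1, ?_, ?_⟩
      · rw [k2, g2]; rfl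
      · simp only [List.map_cons]
        exact (k3.trans g3).trans (List.sublist_cons_self _ _)

end Pool.Agent.W567.IV
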