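import Pool.Agent.W567.IV.NoClosed
import Pool.Agent.W567.IV.Red
import Pool.Agent.W973.IV.Dyn

/-! Assembly: periodic points with spherical and flat bounce points form a null set. -/

set_option autoImplicit false

open scoped Classical

namespace Pool.Agent.W567.IV

variable {n : ℕ}

/-! ### the accumulated isometry -/

lemma Hou_sq (ν : Fin n → ℝ) (h : ν ⬝ᵥ ν = 1) : Hou ν * Hou ν = 1 := by
  unfold Hou
  have h1 : Matrix.vecMulVec ν ν * Matrix.vecMulVec ν ν = Matrix.vecMulVec ν ν := by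
    rw [Matrix.vecMulVec_mul_vecMulVec, h]
    simp
  rw [sub_mul, mul_sub, mul_sub, one_mul, one_mul, mul_one, smul_mul_smul_comm, h1]
  ext i j
  simp only [Matrix.sub_apply, Matrix.smul_apply, smul_eq_mul]
  ring

lemma Hou_det (ν : Fin n → ℝ) (h : ν ⬝ᵥ ν = 1) : (Hou ν).det ≠ 0 := by
  intro h0
  have h1 := congrArg Matrix.det (Hou_sq ν h)
  rw [Matrix.det_mul, h0, Matrix.det_one, zero_mul] at h1
  exact zero_ne_one h1

/-- admissible mirrors -/
def okM : Mir n → Prop
  | Sum.inl S => 0 < S.ρ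
  | Sum.inr H => H.ν ⬝ᵥ H.ν = 1

lemma unf_det (D : ℕ → Mir n) (hD : ∀ k, okM (D k)) (k : ℕ) : (unf D k).2.1.det ≠ 0 := by
  induction k with
  | zero => simp [unf]
  | succ k ih =>
    have h := hD (k + 1)
    rw [unf]
    cases hk : D (k + 1) with
    | inl S => exact ih
    | inr H =>
      rw [hk] at h
      simp only
      rw [Matrix.det_mul]
      exact mul_ne_zero ih (Hou_det _ h)

lemma unf_pos (D : ℕ → Mir n) (hD : ∀ k, okM (D k)) (k : ℕ) : ∀ T ∈ (unf D k).1, 0 < T.ρ := by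
  induction k with
  | zero => simp [unf]
  | succ k ih =>
    have h := hD (k + 1)
    rw [unf]
    cases hk : D (k + 1) with
    | inl S =>
      rw [hk] at h
      intro T hT
      simp only [List.mem_cons] at hT
      rcases hT with rfl | hT
      · exact h
      · exact ih T hT
    | inr H => exact ih

/-! ### polynomials for the words -/

/-- the algebraic heart: the closed chains with a given reduced word lie in a hypersurface -/
lemma poly_of_word (hg : S_germ2) (hs : S_spec2) (hu : S_univ) (hn : 2 ≤ n)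
    (A : Matrix (Fin n) (Fin n) ℝ) (hA : A.det ≠ 0) (W : List (Sph n)) (hW0 : W ≠ [])
    (hW : ∀ T ∈ W, 0 < T.ρ) :
    ∃ P : MvPolynomial (Fin n ⊕ Fin n) ℂ, P ≠ 0 ∧
      ∀ (l : Line n ℂ) (c : Ch n ℂ), c.map Prod.fst = W → Val c l →
        (endl c l).2 = (castM ℂ A).mulVec l.2 →
        MvPolynomial.eval (Sum.elim l.1 l.2) P = 0 := by
  by_contra hcon
  push Not at hcon
  let I : Type := {q : Line n ℂ × Ch n ℂ // q.2.map Prod.fst = W ∧ Val q.2 q.1 ∧
    (endl q.2 q.1).2 = (castM ℂ A).mulVec q.1.2}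
  obtain ⟨F, iF, iA, l', c', g1, g2, g3, g4⟩ := hg n A W I (fun i => i.1.1) (fun i => i.1.2)
    (fun i => i.2.1) (fun i => i.2.2.1) (fun i => i.2.2.2) (by
      intro P hP
      obtain ⟨l, c, h1, h2, h3, h4⟩ := hcon P hP
      exact ⟨⟨(l, c), h1, h2, h3⟩, h4⟩)
  exact no_closed hs hu hn W hW0 hW A hA F l' c' g1 g2 g3 g4

/-- closed unfolded straight lines lie in a hypersurface -/
lemma poly_of_empty (hn : 2 ≤ n) (A : Matrix (Fin n) (Fin n) ℝ) (b : Fin n → ℝ) :
    ∃ P : MvPolynomial (Fin n ⊕ Fin n) ℂ, P ≠ 0 ∧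
      ∀ (x v : Fin n → ℝ) (s : ℝ), s ≠ 0 → v ≠ 0 → A.mulVec v = v →
        (A.mulVec (x - s • v) + b = x) →
        MvPolynomial.eval (Sum.elim (fun k => ((x k : ℝ) : ℂ)) (fun k => ((v k : ℝ) : ℂ))) P = 0 := by
  by_cases hA : A = 1
  · -- a translation
    subst hA
    by_cases hb : b = 0
    · refine ⟨1, one_ne_zero, ?_⟩
      intro x v s hs hv _ h2
      exfalso
      rw [Matrix.one_mulVec, hb, add_zero] at h2
      apply hv
      have h3 : s • v = 0 := by
        have := congrArg (fun y => x - y) h2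
        simpa using this
      exact (smul_eq_zero.mp h3).resolve_left hs
    · obtain ⟨i, hi⟩ := Function.ne_iff.mp hb
      obtain ⟨j, hj⟩ : ∃ j : Fin n, j ≠ i := by
        have : Nontrivial (Fin n) := Fin.nontrivial_iff_two_le.mpr hn
        exact exists_ne i
      refine ⟨MvPolynomial.C ((b i : ℝ) : ℂ) * MvPolynomial.X (Sum.inr j) -
        MvPolynomial.C ((b j : ℝ) : ℂ) * MvPolynomial.X (Sum.inr i), ?_, ?_⟩
      · intro h0
        have h1 := congrArg (MvPolynomial.eval (fun k : Fin n ⊕ Fin n =>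
          if k = Sum.inr j then (1 : ℂ) else 0)) h0
        have h2 : (Sum.inr i : Fin n ⊕ Fin n) ≠ Sum.inr j := by
          intro h; exact hj (Sum.inr.inj h).symm
        simp only [map_sub, map_mul, MvPolynomial.eval_C, MvPolynomial.eval_X, if_pos, if_neg h2,
          mul_one, mul_zero, sub_zero, map_zero] at h1
        apply hi
        exact_mod_cast h1
      · intro x v s _ _ _ h2
        rw [Matrix.one_mulVec] at h2
        have h3 : ∀ k, b k = s * v k := by
          intro k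
          have := congrFun h2 k
          simp only [Pi.add_apply, Pi.sub_apply, Pi.smul_apply, smul_eq_mul] at this
          linarith
        simp only [map_sub, map_mul, MvPolynomial.eval_C, MvPolynomial.eval_X, Sum.elim_inr]
        rw [h3 i, h3 j]
        push_cast
        ring
  · -- a nontrivial linear part
    obtain ⟨i, j, hij⟩ : ∃ i j, A i j ≠ (1 : Matrix (Fin n) (Fin n) ℝ) i j := by
      by_contra hcon
      push Not at hcon
      exact hA (Matrix.ext hcon)
    refine ⟨∑ k, MvPolynomial.C (((A i k - (1 : Matrix (Fin n) (Fin n) ℝ) i k : ℝ)) : ℂ) *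
      MvPolynomial.X (Sum.inr k), ?_, ?_⟩
    · intro h0
      have h1 := congrArg (MvPolynomial.eval (fun k : Fin n ⊕ Fin n =>
        if k = Sum.inr j then (1 : ℂ) else 0)) h0
      simp only [map_sum, map_mul, MvPolynomial.eval_C, MvPolynomial.eval_X, map_zero,
        Sum.inr.injEq, mul_ite, mul_one, mul_zero, Finset.sum_ite_eq', Finset.mem_univ,
        if_true] at h1
      apply hij
      have h2 : (A i j - (1 : Matrix (Fin n) (Fin n) ℝ) i j : ℝ) = 0 := by exact_mod_cast h1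
      linarith
    · intro x v s _ _ h1 _
      simp only [map_sum, map_mul, MvPolynomial.eval_C, MvPolynomial.eval_X, Sum.elim_inr]
      have h2 := congrFun h1 i
      have h3 : ∑ k, (A i k - (1 : Matrix (Fin n) (Fin n) ℝ) i k) * v k = 0 := by
        simp only [sub_mul, Finset.sum_sub_distrib]
        have h4 : ∑ k, (1 : Matrix (Fin n) (Fin n) ℝ) i k * v k = v i := by
          have := congrFun (Matrix.one_mulVec v) i
          exact this
        rw [h4]
        have h5 : ∑ k, A i k * v k = v i := h2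
        rw [h5, sub_self]
      have h4 := congrArg (fun z : ℝ => (z : ℂ)) h3
      push_cast at h4
      push_cast
      exact h4

lemma prod_list {κ τ : Type} (E : MvPolynomial κ ℂ → τ → Prop)
    (hE : ∀ P P' t, E P t → E (P * P') t ∧ E (P' * P) t) :
    ∀ (𝓛 : List τ), (∀ t ∈ 𝓛, ∃ P, P ≠ 0 ∧ E P t) → ∃ P, P ≠ 0 ∧ ∀ t ∈ 𝓛, E P t := by
  intro 𝓛
  induction 𝓛 with
  | nil => intro _; exact ⟨1, one_ne_zero, by simp⟩
  | cons t 𝓛 ih =>
    intro h
    obtain ⟨P, hP, hP'⟩ := ih (fun t ht => h t (List.mem_cons_of_mem _ ht))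
    obtain ⟨P1, hP1, hP1'⟩ := h t List.mem_cons_self
    refine ⟨P1 * P, mul_ne_zero hP1 hP, ?_⟩
    intro t' ht'
    rcases List.mem_cons.mp ht' with rfl | ht'
    · exact (hE P1 P _ hP1').1
    · exact (hE P P1 t' (hP' t' ht')).2

/-- all orbits with the mirrors `D 1, ..., D N` -/
lemma poly_of_D (hg : S_germ2) (hs : S_spec2) (hu : S_univ) (hn : 2 ≤ n) (D : ℕ → Mir n)
    (hD : ∀ k, okM (D k)) (N : ℕ) :
    ∃ P : MvPolynomial (Fin n ⊕ Fin n) ℂ, P ≠ 0 ∧
      ∀ (x v : Fin n → ℝ) (ch : Ch n ℂ) (s : ℝ), s ≠ 0 → v ≠ 0 → ch.map Prod.fst = (unf D N).1 →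
        WVal ch ((fun k => ((x k : ℝ) : ℂ)), (fun k => ((v k : ℝ) : ℂ))) →
        endl ch ((fun k => ((x k : ℝ) : ℂ)), (fun k => ((v k : ℝ) : ℂ)))
            = ((fun k => ((((unf D N).2.1.mulVec (x - s • v) + (unf D N).2.2) k : ℝ) : ℂ)),
               (fun k => (((unf D N).2.1.mulVec v k : ℝ) : ℂ))) →
        MvPolynomial.eval (Sum.elim (fun k => ((x k : ℝ) : ℂ)) (fun k => ((v k : ℝ) : ℂ))) P = 0 := by
  set W := (unf D N).1 with hWdef
  set A := (unf D N).2.1 with hAdef
  set b := (unf D N).2.2 with hbdef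
  have hWpos := unf_pos D hD N
  have hdet := unf_det D hD N
  -- polynomial for each word
  have hpoly : ∀ W' : List (Sph n), W'.Sublist W → ∃ P : MvPolynomial (Fin n ⊕ Fin n) ℂ, P ≠ 0 ∧
      ∀ (x v : Fin n → ℝ) (c' : Ch n ℂ) (s : ℝ), s ≠ 0 → v ≠ 0 → c'.map Prod.fst = W' →
        Val c' ((fun k => ((x k : ℝ) : ℂ)), (fun k => ((v k : ℝ) : ℂ))) →
        endl c' ((fun k => ((x k : ℝ) : ℂ)), (fun k => ((v k : ℝ) : ℂ)))
            = ((fun k => (((A.mulVec (x - s • v) + b) k : ℝ) : ℂ)),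
               (fun k => ((A.mulVec v k : ℝ) : ℂ))) →
        MvPolynomial.eval (Sum.elim (fun k => ((x k : ℝ) : ℂ)) (fun k => ((v k : ℝ) : ℂ))) P = 0 := by
    intro W' hW'
    by_cases hW0 : W' = []
    · obtain ⟨P, hP, hP'⟩ := poly_of_empty hn A b
      refine ⟨P, hP, ?_⟩
      intro x v c' s hs hv hc _ he
      rw [hW0, List.map_eq_nil_iff] at hc
      rw [hc] at he
      have h1 := congrArg Prod.fst he
      have h2 := congrArg Prod.snd he
      simp only [endl] at h1 h2
      refine hP' x v s hs hv ?_ ?_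
      · funext k
        have := congrFun h2 k
        exact_mod_cast this.symm
      · funext k
        have := congrFun h1 k
        exact_mod_cast this.symm
    · obtain ⟨P, hP, hP'⟩ := poly_of_word hg hs hu hn A hdet W' hW0
        (fun T hT => hWpos T (hW'.subset hT))
      refine ⟨P, hP, ?_⟩
      intro x v c' s hs hv hc hval he
      refine hP' ((fun k => ((x k : ℝ) : ℂ)), (fun k => ((v k : ℝ) : ℂ))) c' hc hval ?_
      rw [he]
      funext k
      simp [castM, Matrix.mulVec, dotProduct]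
  obtain ⟨P, hP, hP'⟩ := prod_list (fun (P : MvPolynomial (Fin n ⊕ Fin n) ℂ)
      (W' : List (Sph n)) =>
      ∀ (x v : Fin n → ℝ) (c' : Ch n ℂ) (s : ℝ), s ≠ 0 → v ≠ 0 → c'.map Prod.fst = W' →
        Val c' ((fun k => ((x k : ℝ) : ℂ)), (fun k => ((v k : ℝ) : ℂ))) →
        endl c' ((fun k => ((x k : ℝ) : ℂ)), (fun k => ((v k : ℝ) : ℂ)))
            = ((fun k => (((A.mulVec (x - s • v) + b) k : ℝ) : ℂ)),
               (fun k => ((A.mulVec v k : ℝ) : ℂ))) →
        MvPolynomial.eval (Sum.elim (fun k => ((x k : ℝ) : ℂ)) (fun k => ((v k : ℝ) : ℂ))) P = 0)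
    (by
      intro P P' t h
      refine ⟨?_, ?_⟩
      · intro x v c' s h1 h2 h3 h4 h5
        rw [map_mul, h x v c' s h1 h2 h3 h4 h5, zero_mul]
      · intro x v c' s h1 h2 h3 h4 h5
        rw [map_mul, h x v c' s h1 h2 h3 h4 h5, mul_zero])
    W.sublists (by
      intro W' hW'
      exact hpoly W' (List.mem_sublists.mp hW'))
  refine ⟨P, hP, ?_⟩
  · intro x v ch s hs hv hc hval he
    have hWc : ∀ p ∈ ch, 0 < p.1.ρ := by
      intro p hp
      apply hWpos
      rw [← hWdef, ← hc]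
      exact List.mem_map_of_mem hp
    have hq : (fun k => ((v k : ℝ) : ℂ)) ⬝ᵥ (fun k => ((v k : ℝ) : ℂ)) ≠ 0 := by
      have h1 : (fun k => ((v k : ℝ) : ℂ)) ⬝ᵥ (fun k => ((v k : ℝ) : ℂ)) =
          ((∑ k, v k * v k : ℝ) : ℂ) := by
        simp [dotProduct]
      rw [h1]
      obtain ⟨k, hk⟩ := Function.ne_iff.mp hv
      have h2 : 0 < ∑ k, v k * v k := by
        refine Finset.sum_pos' (fun k _ => mul_self_nonneg _) ⟨k, Finset.mem_univ _, ?_⟩
        exact mul_self_pos.mpr hk
      exact_mod_cast h2.ne'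
    obtain ⟨c', g1, g2, g3⟩ := red n ℂ ((fun k => ((x k : ℝ) : ℂ)), (fun k => ((v k : ℝ) : ℂ))) hq
      ch hWc hval
    rw [hc] at g3
    exact hP' _ (List.mem_sublists.mpr g3) x v c' s hs hv rfl g1 (by rw [g2]; exact he)

end Pool.Agent.W567.IV
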