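import Mathlib

/-! Ivrii's conjecture for spherical billiards: algebraic definitions and statements of the parts.
All objects live over a field `F` which is a `ℂ`-algebra. -/

set_option autoImplicit false

open scoped Classical

namespace Pool.Agent.W567.IV

/-- a round sphere: centre `O`, squared radius `ρ` -/
structure Sph (n : ℕ) where
  O : Fin n → ℝ
  ρ : ℝ

variable {n : ℕ}

/-- the centre, with coordinates in `F` -/
noncomputable def Sph.ctr (F : Type) [Field F] [Algebra ℂ F] (S : Sph n) : Fin n → F :=
  fun k => algebraMap ℂ F ((S.O k : ℝ) : ℂ)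

/-- the squared radius in `F` -/
noncomputable def Sph.rad (F : Type) [Field F] [Algebra ℂ F] (S : Sph n) : F :=
  algebraMap ℂ F ((S.ρ : ℝ) : ℂ)

/-- a (parametrised, oriented) line: the point at time zero and the velocity -/
abbrev Line (n : ℕ) (F : Type) := (Fin n → F) × (Fin n → F)

variable {F : Type} [Field F] [Algebra ℂ F]

/-- the discriminant of the intersection of the line with the sphere -/
noncomputable def DD (S : Sph n) (l : Line n F) : F :=
  ((l.1 - S.ctr F) ⬝ᵥ l.2) ^ 2 - (l.2 ⬝ᵥ l.2) * ((l.1 - S.ctr F) ⬝ᵥ (l.1 - S.ctr F) - S.rad F)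

/-- the time of the collision belonging to the root `δ` of the discriminant -/
noncomputable def tau (S : Sph n) (δ : F) (l : Line n F) : F :=
  (δ - (l.1 - S.ctr F) ⬝ᵥ l.2) / (l.2 ⬝ᵥ l.2)

/-- the collision point minus the centre -/
noncomputable def YY (S : Sph n) (δ : F) (l : Line n F) : Fin n → F :=
  (l.1 - S.ctr F) + tau S δ l • l.2

/-- the line after the reflection in `S`, parametrised with the same time -/
noncomputable def RR (S : Sph n) (δ : F) (l : Line n F) : Line n F :=
  (l.1 + (tau S δ l * (2 * δ / S.rad F)) • YY S δ l, l.2 - (2 * δ / S.rad F) • YY S δ l)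

/-- a chain of reflections: the head of the list is the last reflection -/
abbrev Ch (n : ℕ) (F : Type) := List (Sph n × F)

/-- the line after the chain -/
noncomputable def endl : Ch n F → Line n F → Line n F
  | [], l => l
  | (p :: c), l => RR p.1 p.2 (endl c l)

/-- within the current block of concentric spheres the same sphere has the same root -/
noncomputable def compat (S : Sph n) (δ : F) : Ch n F → Prop
  | [] => True
  | (p :: c) => p.1.O = S.O → ((p.1.ρ = S.ρ → p.2 = δ) ∧ compat S δ c)

/-- valid chains -/
noncomputable def Val : Ch n F → Line n F → Prop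
  | [], _ => True
  | (p :: c), l => Val c l ∧ p.2 ^ 2 = DD p.1 (endl c l) ∧ compat p.1 p.2 c

/-- the coordinates of the line are algebraically independent over `ℂ` -/
def Gen (l : Line n F) : Prop :=
  AlgebraicIndependent ℂ (Sum.elim l.1 l.2 : Fin n ⊕ Fin n → F)

/-- no sphere of the first block of the word with the centre of `S` equals `S` -/
noncomputable def Fresh (S : Sph n) : List (Sph n) → Prop
  | [] => True
  | (T :: W) => T.O = S.O → (T.ρ ≠ S.ρ ∧ Fresh S W)

end Pool.Agent.W567.IV
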