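import Pool.Agent.W567.IV.Defs

/-! Ivrii's conjecture for spherical billiards: statements of the parts. -/

set_option autoImplicit false

open scoped Classical

namespace Pool.Agent.W567.IV

/-- IV-MEAS: phase points whose lines (all parametrisations) lie in a proper algebraic set form a null set. -/
def S_meas : Prop :=
  ∀ (n : ℕ), 2 ≤ n → ∀ (O : EuclideanSpace ℝ (Fin n)) (r : ℝ), 0 < r →
    ∀ (P : MvPolynomial (Fin n ⊕ Fin n) ℂ), P ≠ 0 →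
    ∀ Z : Set (EuclideanSpace ℝ (Fin n) × EuclideanSpace ℝ (Fin n)),
      (∀ q ∈ Z, ‖q.1 - O‖ = r ∧ ‖q.2‖ = 1 ∧ inner ℝ (q.1 - O) q.2 ≠ 0 ∧
        ∀ t c : ℝ, 0 < c →
          MvPolynomial.eval (Sum.elim (fun k => ((q.1 k + t * q.2 k : ℝ) : ℂ))
            (fun k => ((c * q.2 k : ℝ) : ℂ))) P = 0) →
      MeasureTheory.Measure.hausdorffMeasure ((2 * n - 2 : ℕ) : ℝ) Z = 0

/-- the word of the spheres `T 1, ..., T N` with the last one at the head -/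
def wd {n : ℕ} (T : ℕ → Sph n) : ℕ → List (Sph n)
  | 0 => []
  | (k + 1) => T (k + 1) :: wd T k

/-- IV-DYN: a periodic billiard orbit with spherical bounce points gives a closed chain. -/
def S_dyn : Prop :=
  ∀ (n : ℕ) (f : EuclideanSpace ℝ (Fin n) → ℝ), Differentiable ℝ f →
    (∀ x, f x = 0 → gradient f x ≠ 0) →
    ∀ (N : ℕ), 1 ≤ N → ∀ (p u : ℕ → EuclideanSpace ℝ (Fin n)) (T : ℕ → Sph n) (s : ℕ → Bool),
      p N = p 0 → u N = u 0 → T N = T 0 → s N = s 0 →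
      (∀ k, k < N → 0 < (T k).ρ ∧ f (p k) = 0 ∧ ‖u k‖ = 1 ∧ inner ℝ (u k) (gradient f (p k)) < 0 ∧
        (∃ t : ℝ, 0 < t ∧ p (k + 1) = p k + t • u k) ∧
        u (k + 1) = u k - (2 * inner ℝ (u k) (gradient f (p (k + 1))) /
                ‖gradient f (p (k + 1))‖ ^ 2) • gradient f (p (k + 1)) ∧
        (∀ᶠ x in nhds (p k), f x = 0 ↔ ∑ i, (x i - (T k).O i) ^ 2 = (T k).ρ) ∧
        (s k = true → ∀ᶠ x in nhds (p k), f x < 0 ↔ ∑ i, (x i - (T k).O i) ^ 2 < (T k).ρ) ∧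
        (s k = false → ∀ᶠ x in nhds (p k), f x < 0 ↔ (T k).ρ < ∑ i, (x i - (T k).O i) ^ 2)) →
      (∀ j k, j ≤ N → k ≤ N → (T j).O = (T k).O → (T j).ρ = (T k).ρ → s j = s k) →
      ∀ t c : ℝ, 0 < c →
        ∃ ch : Ch n ℂ, ch.map Prod.fst = wd T N ∧
          Val ch ((fun k => ((p 0 k + t * u 0 k : ℝ) : ℂ)), (fun k => ((c * u 0 k : ℝ) : ℂ))) ∧
          (endl ch ((fun k => ((p 0 k + t * u 0 k : ℝ) : ℂ)), (fun k => ((c * u 0 k : ℝ) : ℂ)))).2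
            = (fun k => ((c * u 0 k : ℝ) : ℂ))

/-- IV-GERM: a Zariski dense family of closed chains gives a generic closed chain (ultraproduct). -/
def S_germ : Prop :=
  ∀ (n : ℕ) (W : List (Sph n)) (I : Type) (l : I → Line n ℂ) (c : I → Ch n ℂ),
    (∀ i, (c i).map Prod.fst = W) → (∀ i, Val (c i) (l i)) →
    (∀ i, (endl (c i) (l i)).2 = (l i).2) →
    (∀ P : MvPolynomial (Fin n ⊕ Fin n) ℂ, P ≠ 0 →
      ∃ i, MvPolynomial.eval (Sum.elim (l i).1 (l i).2) P ≠ 0) →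
    ∃ (F : Type) (_ : Field F) (_ : Algebra ℂ F) (l' : Line n F) (c' : Ch n F),
      Gen l' ∧ c'.map Prod.fst = W ∧ Val c' l' ∧ (endl c' l').2 = l'.2

/-- IV-SQRT: square roots of power series. -/
def S_sqrt : Prop :=
  ∀ (L : Type) [Field L] [CharZero L] (f : PowerSeries L) (c : L), c ≠ 0 →
    PowerSeries.constantCoeff (R := L) f = c ^ 2 →
    ∃ g : PowerSeries L, g ^ 2 = f ∧ PowerSeries.constantCoeff (R := L) g = c

/-- IV-TR: transfer of algebraic independence. -/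
def S_tr : Prop :=
  ∀ (ι : Type) [Finite ι] (F : Type) [Field F] [Algebra ℂ F] (x y : ι → F),
    AlgebraicIndependent ℂ y →
    (∀ (K : IntermediateField ℂ F), (∀ i, x i ∈ K) → ∀ i, IsAlgebraic K (y i)) →
    AlgebraicIndependent ℂ x

/-- IV-GEN: generic perturbations are algebraically independent. -/
def S_gen : Prop :=
  ∀ (ι : Type) [Finite ι],
    ∃ (L : Type) (_ : Field L) (_ : Algebra ℂ L) (a : ι → L),
      ∀ (P : ι → Polynomial ℂ) (N : ℕ),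
        AlgebraicIndependent ℂ (fun i => Polynomial.aeval (HahnSeries.single (1 : ℤ) (1 : L)) (P i) +
          (HahnSeries.single (1 : ℤ) (1 : L)) ^ N * HahnSeries.C (a i) : ι → LaurentSeries L)

/-- IV-W: an isotropic vector not orthogonal to finitely many real vectors. -/
def S_w : Prop :=
  ∀ (n : ℕ), 2 ≤ n → ∀ (A : List (Fin n → ℝ)), (∀ c ∈ A, c ≠ 0) →
    ∃ w w' : Fin n → ℂ, w ⬝ᵥ w = 0 ∧ w' ⬝ᵥ w' = 0 ∧ w ⬝ᵥ w' = 2 ∧
      ∀ c ∈ A, (fun i => ((c i : ℝ) : ℂ)) ⬝ᵥ w ≠ 0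

/-- IV-SPEC: special generic chains. -/
def S_spec : Prop :=
  ∀ (n : ℕ), 2 ≤ n → ∀ (W : List (Sph n)) (S : Sph n), (∀ T ∈ W, 0 < T.ρ) → 0 < S.ρ →
    Fresh S W →
    ∃ (F : Type) (_ : Field F) (_ : Algebra ℂ F) (l : Line n F) (c : Ch n F),
      Gen l ∧ c.map Prod.fst = W ∧ Val c l ∧ (∀ g : F, g ^ 2 ≠ DD S (endl c l)) ∧
      (∀ T, W.head? = some T → T.O ≠ S.O → (endl c l).2 ≠ l.2)

/-- IV-UNIV: the universal chain. -/
def S_univ : Prop :=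
  ∀ (n : ℕ), 2 ≤ n → ∀ (W : List (Sph n)), (∀ T ∈ W, 0 < T.ρ) →
    ∃ (U : Type) (_ : Field U) (_ : Algebra ℂ U) (l : Line n U) (c : Ch n U),
      Gen l ∧ c.map Prod.fst = W ∧ Val c l ∧
      ∀ (F : Type) [Field F] [Algebra ℂ F] (l' : Line n F) (c' : Ch n F),
        Gen l' → c'.map Prod.fst = W → Val c' l' →
        ∃ φ : U →ₐ[ℂ] F, (φ ∘ l.1 = l'.1 ∧ φ ∘ l.2 = l'.2) ∧ c.map (fun p => (p.1, φ p.2)) = c'

end Pool.Agent.W567.IV
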