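import Pool.Agent.W567.IV.Alg
import Pool.Agent.W567.IV.Stm

/-! The universal chain exists, given special chains. -/

set_option autoImplicit false

open scoped Classical

set_option linter.unusedSectionVars false

namespace Pool.Agent.W567.IV

variable {n : ℕ}

section blk
variable {F : Type} [Field F] [Algebra ℂ F]

/-- the root `δ` occurs in the first block with the sphere `S` -/
noncomputable def inb (S : Sph n) (δ : F) : Ch n F → Prop
  | [] => False
  | (p :: c) => p.1.O = S.O ∧ ((p.1.ρ = S.ρ ∧ p.2 = δ) ∨ inb S δ c)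

lemma exists_inb (S : Sph n) (c : Ch n F) (h : ¬ Fresh S (c.map Prod.fst)) : ∃ δ, inb S δ c := by
  induction c with
  | nil => exact absurd trivial h
  | cons p c ih =>
    simp only [List.map_cons, Fresh, not_forall] at h
    obtain ⟨hO, h⟩ := h
    by_cases hρ : p.1.ρ = S.ρ
    · exact ⟨p.2, hO, Or.inl ⟨hρ, rfl⟩⟩
    · have : ¬ Fresh S (c.map Prod.fst) := fun h' => h ⟨hρ, h'⟩
      obtain ⟨δ, hδ⟩ := ih this
      exact ⟨δ, hO, Or.inr hδ⟩

lemma inb_compat (S : Sph n) (δ δ' : F) (c : Ch n F) (h : inb S δ c) (h' : compat S δ' c) :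
    δ = δ' := by
  induction c with
  | nil => exact absurd h id
  | cons p c ih =>
    obtain ⟨hO, h1 | h1⟩ := h
    · rw [← (h' hO).1 h1.1, h1.2]
    · exact ih h1 (h' hO).2

lemma compat_congr (S T : Sph n) (hO : T.O = S.O) (hρ : T.ρ = S.ρ) (δ : F) (c : Ch n F)
    (h : compat T δ c) : compat S δ c := by
  induction c with
  | nil => trivial
  | cons p c ih =>
    intro h1
    obtain ⟨h2, h3⟩ := h (h1.trans hO.symm)
    exact ⟨fun h4 => h2 (h4.trans hρ.symm), ih h3⟩

lemma compat_of_inb (S : Sph n) (δ : F) (c : Ch n F) (l : Line n F) (hv : Val c l)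
    (h : inb S δ c) : compat S δ c := by
  induction c with
  | nil => trivial
  | cons p c ih =>
    obtain ⟨hO, h1 | h1⟩ := h
    · intro _
      refine ⟨fun _ => h1.2, ?_⟩
      rw [← h1.2]
      exact compat_congr S p.1 hO h1.1 _ _ hv.2.2
    · intro _
      refine ⟨fun hρ => ?_, ih hv.1 h1⟩
      exact (inb_compat S δ p.2 c h1 (compat_congr S p.1 hO hρ _ _ hv.2.2)).symm

lemma DD_of_inb (S : Sph n) (δ : F) (c : Ch n F) (l : Line n F) (hW : ∀ p ∈ c, 0 < p.1.ρ)
    (hq : l.2 ⬝ᵥ l.2 ≠ 0) (hv : Val c l)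
    (h : inb S δ c) : δ ^ 2 = DD S (endl c l) := by
  induction c with
  | nil => exact absurd h id
  | cons p c ih =>
    have hW' : ∀ p ∈ c, 0 < p.1.ρ := fun p hp => hW p (List.mem_cons_of_mem _ hp)
    have hq' : (endl c l).2 ⬝ᵥ (endl c l).2 ≠ 0 := by
      rw [endl_q c l hW' hq hv.1]; exact hq
    have hr : p.1.rad F ≠ 0 := rad_ne _ (hW p (List.mem_cons_self))
    have key : DD S (endl (p :: c) l) = DD S (endl c l) :=
      RR_DD_conc p.2 (endl c l) p.1 S h.1.symm hq' hr hv.2.1
    rw [key]
    obtain ⟨hO, h1 | h1⟩ := h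
    · rw [← h1.2, hv.2.1]
      have e1 : p.1.ctr F = S.ctr F := by unfold Sph.ctr; rw [hO]
      have e2 : p.1.rad F = S.rad F := by unfold Sph.rad; rw [h1.1]
      unfold DD; rw [e1, e2]
    · exact ih hW' hv.1 h1

lemma inb_map {F' : Type} [Field F'] [Algebra ℂ F'] (φ : F →ₐ[ℂ] F') (S : Sph n) (δ : F)
    (c : Ch n F) (h : inb S δ c) : inb S (φ δ) (mapC φ c) := by
  induction c with
  | nil => exact h
  | cons p c ih =>
    obtain ⟨hO, h1 | h1⟩ := h
    · exact ⟨hO, Or.inl ⟨h1.1, congrArg φ h1.2⟩⟩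
    · exact ⟨hO, Or.inr (ih h1)⟩

lemma compat_of_fresh (S : Sph n) (δ : F) (c : Ch n F) (h : Fresh S (c.map Prod.fst)) :
    compat S δ c := by
  induction c with
  | nil => trivial
  | cons p c ih =>
    intro hO
    obtain ⟨h1, h2⟩ := h hO
    exact ⟨fun h3 => absurd h3 h1, ih h2⟩

lemma Gen_map {F' : Type} [Field F'] [Algebra ℂ F'] (φ : F →ₐ[ℂ] F') (l : Line n F) (h : Gen l) :
    Gen (mapL φ l) := by
  unfold Gen at h ⊢
  have := h.map' (f := φ) φ.toRingHom.injective
  convert this using 1
  funext i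
  cases i <;> rfl

end blk

lemma Gen_q {F : Type} [Field F] [Algebra ℂ F] (hn : 2 ≤ n) (l : Line n F) (h : Gen l) :
    l.2 ⬝ᵥ l.2 ≠ 0 := by
  intro h0
  unfold Gen at h
  have h1 := h
  rw [algebraicIndependent_iff] at h1
  have h2 := h1 (∑ k : Fin n, MvPolynomial.X (Sum.inr k) ^ 2) (by
    simp only [map_sum, map_pow, MvPolynomial.aeval_X, Sum.elim_inr]
    rw [← h0]; simp [dotProduct, sq])
  have h3 := congrArg (MvPolynomial.eval (fun i : Fin n ⊕ Fin n =>
    if i = Sum.inr ⟨0, by omega⟩ then (1 : ℂ) else 0)) h2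
  simp at h3

theorem univ_of (hs : S_spec) : S_univ := by
  intro n hn W hW
  induction W with
  | nil =>
    refine ⟨FractionRing (MvPolynomial (Fin n ⊕ Fin n) ℂ), inferInstance, inferInstance,
      (fun k => algebraMap (MvPolynomial (Fin n ⊕ Fin n) ℂ)
          (FractionRing (MvPolynomial (Fin n ⊕ Fin n) ℂ)) (MvPolynomial.X (Sum.inl k)),
        fun k => algebraMap (MvPolynomial (Fin n ⊕ Fin n) ℂ)
          (FractionRing (MvPolynomial (Fin n ⊕ Fin n) ℂ)) (MvPolynomial.X (Sum.inr k))),
      [], ?_, rfl, trivial, ?_⟩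
    · unfold Gen
      have := (MvPolynomial.algebraicIndependent_X (Fin n ⊕ Fin n) ℂ).map'
        (f := Algebra.algHom ℂ (MvPolynomial (Fin n ⊕ Fin n) ℂ)
          (FractionRing (MvPolynomial (Fin n ⊕ Fin n) ℂ)))
        (IsFractionRing.injective _ _)
      convert this using 1
      · funext i
        cases i <;> rfl
      · rfl
    · intro F _ _ l' c' hG hc hv
      have hinj : Function.Injective (MvPolynomial.aeval (R := ℂ) (Sum.elim l'.1 l'.2)) := hG
      refine ⟨IsFractionRing.liftAlgHom hinj, ⟨?_, ?_⟩, ?_⟩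
      · funext k
        simp
      · funext k
        simp
      · have : c' = [] := by simpa using hc
        rw [this]; rfl
  | cons S W ih =>
    obtain ⟨U, iF, iA, l, c, hG, hc, hv, hU⟩ := ih (fun T hT => hW T (List.mem_cons_of_mem _ hT))
    have hWc : ∀ p ∈ c, 0 < p.1.ρ := by
      intro p hp
      apply hW
      refine List.mem_cons_of_mem _ ?_
      rw [← hc]; exact List.mem_map_of_mem hp
    have hSρ : 0 < S.ρ := hW S (List.mem_cons_self)
    have hq := Gen_q hn l hG
    by_cases hF : Fresh S W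
    · -- a new root
      obtain ⟨F1, iF1, iA1, l1, c1, hG1, hc1, hv1, hns, -⟩ :=
        hs n hn W S (fun T hT => hW T (List.mem_cons_of_mem _ hT)) hSρ hF
      obtain ⟨φ1, ⟨h11, h12⟩, h13⟩ := hU F1 l1 c1 hG1 hc1 hv1
      have hl1 : mapL φ1 l = l1 := Prod.ext h11 h12
      have hc1' : mapC φ1 c = c1 := h13
      have hnsq : ∀ g : U, g ^ 2 ≠ DD S (endl c l) := by
        intro g hg
        apply hns (φ1 g)
        rw [← map_pow, hg, ← DD_map, ← endl_map, hl1, hc1']
      have hirr : Irreducible (Polynomial.X ^ 2 - Polynomial.C (DD S (endl c l)) : Polynomial U) :=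
        X_pow_sub_C_irreducible_of_prime Nat.prime_two hnsq
      have : Fact (Irreducible (Polynomial.X ^ 2 - Polynomial.C (DD S (endl c l)) :
        Polynomial U)) := ⟨hirr⟩
      set P : Polynomial U := Polynomial.X ^ 2 - Polynomial.C (DD S (endl c l)) with hP
      let ι : U →ₐ[ℂ] AdjoinRoot P := AdjoinRoot.ofAlgHom ℂ P
      have hroot : (AdjoinRoot.root P) ^ 2 = ι (DD S (endl c l)) := by
        have h0 := AdjoinRoot.eval₂_root P
        rw [hP] at h0
        simp only [Polynomial.eval₂_sub, Polynomial.eval₂_pow, Polynomial.eval₂_X,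
          Polynomial.eval₂_C] at h0
        exact sub_eq_zero.mp h0
      refine ⟨AdjoinRoot P, inferInstance, inferInstance, mapL ι l,
        (S, AdjoinRoot.root P) :: mapC ι c, Gen_map ι l hG, ?_, ?_, ?_⟩
      · simp only [List.map_cons, mapC_fst, hc]
      · refine ⟨Val_map ι c l hv, ?_, ?_⟩
        · show (AdjoinRoot.root P) ^ 2 = DD S (endl (mapC ι c) (mapL ι l))
          rw [endl_map, DD_map, hroot]
        · apply compat_of_fresh
          rw [mapC_fst, hc]; exact hF
      · intro F _ _ l' c' hG' hc' hv'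
        match c', hc', hv' with
        | (q :: c'), hc', hv' =>
          simp only [List.map_cons, List.cons.injEq] at hc'
          obtain ⟨hq1, hq2⟩ := hc'
          obtain ⟨φ, ⟨g1, g2⟩, g3⟩ := hU F l' c' hG' hq2 hv'.1
          have hl' : mapL φ l = l' := Prod.ext g1 g2
          have hc'' : mapC φ c = c' := g3
          have hev : P.eval₂ (φ : U →+* F) q.2 = 0 := by
            rw [hP]
            simp only [Polynomial.eval₂_sub, Polynomial.eval₂_pow, Polynomial.eval₂_X,
              Polynomial.eval₂_C]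
            rw [hv'.2.1, ← hl', ← hc'', endl_map, DD_map, hq1]
            exact sub_self _
          refine ⟨AdjoinRoot.liftAlgHom P φ q.2 hev, ⟨?_, ?_⟩, ?_⟩
          · rw [← g1]
            funext k
            exact AdjoinRoot.liftAlgHom_of P φ q.2 hev (l.1 k)
          · rw [← g2]
            funext k
            exact AdjoinRoot.liftAlgHom_of P φ q.2 hev (l.2 k)
          · show (S, AdjoinRoot.liftAlgHom P φ q.2 hev (AdjoinRoot.root P)) ::
              (mapC ι c).map (fun p => (p.1, AdjoinRoot.liftAlgHom P φ q.2 hev p.2)) = q :: c'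
            rw [AdjoinRoot.liftAlgHom_root, ← hq1, ← hc'']
            congr 1
            unfold mapC
            rw [List.map_map]
            apply List.map_congr_left
            intro p _
            refine Prod.ext rfl ?_
            exact AdjoinRoot.liftAlgHom_of P φ q.2 hev p.2
    · -- an old root
      rw [← hc] at hF
      obtain ⟨δ, hδ⟩ := exists_inb S c hF
      refine ⟨U, iF, iA, l, (S, δ) :: c, hG, ?_, ?_, ?_⟩
      · simp only [List.map_cons, hc]
      · exact ⟨hv, DD_of_inb S δ c l hWc hq hv hδ, compat_of_inb S δ c l hv hδ⟩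
      · intro F _ _ l' c' hG' hc' hv'
        match c', hc', hv' with
        | (q :: c'), hc', hv' =>
          simp only [List.map_cons, List.cons.injEq] at hc'
          obtain ⟨hq1, hq2⟩ := hc'
          obtain ⟨φ, ⟨g1, g2⟩, g3⟩ := hU F l' c' hG' hq2 hv'.1
          have hc'' : mapC φ c = c' := g3
          refine ⟨φ, ⟨g1, g2⟩, ?_⟩
          show (S, φ δ) :: mapC φ c = q :: c'
          rw [hc'']
          congr 1
          refine Prod.ext hq1.symm ?_
          have h1 := inb_map φ S δ c hδ
          rw [hc''] at h1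
          have h2 := hv'.2.2
          rw [hq1] at h2
          exact inb_compat S _ _ c' h1 h2

end Pool.Agent.W567.IV
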