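import Pool.Agent.W567.IV.Lau
import Pool.Agent.W567.IV.Univ

/-! Growth of nearly isotropic chains. -/

set_option autoImplicit false

open scoped Classical

set_option linter.unusedSectionVars false

namespace Pool.Agent.W567.IV

variable {n : ℕ} {L : Type} [Field L] [Algebra ℂ L]

lemma algMap_eq (z : ℂ) : algebraMap ℂ (LaurentSeries L) z = HahnSeries.C (algebraMap ℂ L z) := by
  rw [HahnSeries.algebraMap_apply', PowerSeries.algebraMap_apply, HahnSeries.ofPowerSeries_C]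

lemma eqv_alg (z : ℂ) : Eqv (algebraMap ℂ (LaurentSeries L) z) (algebraMap ℂ L z) := by
  rw [algMap_eq]; exact eqv_C _

lemma eqv_dot {x y : Fin n → LaurentSeries L} {a b : Fin n → L} (h : ∀ k, Eqv (x k) (a k))
    (h' : ∀ k, Eqv (y k) (b k)) : Eqv (x ⬝ᵥ y) (a ⬝ᵥ b) := by
  unfold dotProduct
  have : ∀ s : Finset (Fin n), Eqv (∑ i ∈ s, x i * y i) (∑ i ∈ s, a i * b i) := by
    intro s
    induction s using Finset.induction_on with
    | empty => simpa using eqv_C (0 : L)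
    | insert i s hi ih =>
      rw [Finset.sum_insert hi, Finset.sum_insert hi]
      exact ((h i).mul (h' i)).add ih
  exact this _

lemma mem_dot {x y : Fin n → LaurentSeries L} (h : ∀ k, x k ∈ OO L)
    (h' : ∀ k, y k ∈ OO L) : (x ⬝ᵥ y) ∈ OO L := by
  unfold dotProduct
  exact Subring.sum_mem _ (fun i _ => (OO L).mul_mem (h i) (h' i))

lemma kap_pow_mem (m : ℕ) : (kap : LaurentSeries L) ^ m ∈ OO L := Subring.pow_mem _ kap_mem m

lemma eqv_kap_pow_mul {x : LaurentSeries L} (h : x ∈ OO L) {m : ℕ} (hm : 1 ≤ m) :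
    Eqv (kap ^ m * x) 0 := by
  obtain ⟨j, rfl⟩ := Nat.exists_eq_add_of_le hm
  rw [pow_add, pow_one, mul_assoc]
  exact eqv_kap_mul ((OO L).mul_mem (kap_pow_mem j) h)

/-- radius in `L` -/
noncomputable def radL (L : Type) [Field L] [Algebra ℂ L] (S : Sph n) : L :=
  algebraMap ℂ L ((S.ρ : ℝ) : ℂ)

lemma radL_ne (S : Sph n) (h : 0 < S.ρ) : radL L S ≠ 0 := by
  unfold radL
  rw [Ne, FaithfulSMul.algebraMap_eq_zero_iff]
  exact_mod_cast h.ne'

lemma eqv_rad (S : Sph n) : Eqv (S.rad (LaurentSeries L)) (radL L S) := eqv_alg _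

lemma step_core (S : Sph n) (hρ : 0 < S.ρ) (l : Line n (LaurentSeries L)) (w : Fin n → L)
    (m e : ℕ) (α b0 δ0 η : L) (q' B Δ : LaurentSeries L)
    (hq : l.2 ⬝ᵥ l.2 = kap ^ 2 * q') (hq' : Eqv q' 1)
    (hv : ∀ k, Eqv (kap ^ m * l.2 k) (α * w k))
    (hb : (l.1 - S.ctr _) ⬝ᵥ l.2 = kap * B) (hB : Eqv (kap ^ e * B) b0)
    (hu : ∀ k, Eqv (kap ^ (m + e + 1) * (l.1 - S.ctr (LaurentSeries L)) k) (η * w k))
    (hΔ : Eqv (kap ^ e * Δ) δ0) :
    (∀ k, Eqv (kap ^ (m + e + 1) * YY S (kap * Δ) l k) ((η + (δ0 - b0) * α) * w k)) ∧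
    (∀ k, Eqv (kap ^ (m + 2 * e) * (RR S (kap * Δ) l).2 k)
      (((if e = 0 then α else 0) - 2 * δ0 * (η + (δ0 - b0) * α) / radL L S) * w k)) := by
  have hk : (kap : LaurentSeries L) ≠ 0 := kap_ne
  have hq0 : q' ≠ 0 := hq'.ne one_ne_zero
  have h1 : ∀ k, Eqv (kap ^ (m + e + 1) * YY S (kap * Δ) l k) ((η + (δ0 - b0) * α) * w k) := by
    intro k
    have e1 : kap ^ (m + e + 1) * YY S (kap * Δ) l k =
        kap ^ (m + e + 1) * (l.1 - S.ctr (LaurentSeries L)) k +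
          (kap ^ e * Δ - kap ^ e * B) * q'⁻¹ * (kap ^ m * l.2 k) := by
      simp only [YY, tau, Pi.add_apply, Pi.smul_apply, smul_eq_mul]
      rw [hb, hq]
      field_simp
      ring
    rw [e1]
    have e2 : (η + (δ0 - b0) * α) * w k = η * w k + (δ0 - b0) * (1 : L)⁻¹ * (α * w k) := by
      rw [inv_one]; ring
    rw [e2]
    exact (hu k).add (((hΔ.sub hB).mul (hq'.inv one_ne_zero)).mul (hv k))
  refine ⟨h1, ?_⟩
  intro k
  have hr : S.rad (LaurentSeries L) ≠ 0 := rad_ne S hρ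
  have hrL : radL L S ≠ 0 := radL_ne S hρ
  have e1 : kap ^ (m + 2 * e) * (RR S (kap * Δ) l).2 k =
      kap ^ (2 * e) * (kap ^ m * l.2 k) -
        HahnSeries.C 2 * (S.rad (LaurentSeries L))⁻¹ * (kap ^ e * Δ) * (kap ^ (m + e + 1) * YY S (kap * Δ) l k) := by
    have h2 : (HahnSeries.C 2 : LaurentSeries L) = 2 := map_ofNat _ 2
    rw [h2]
    simp only [RR, Pi.sub_apply, Pi.smul_apply, smul_eq_mul]
    field_simp
    ring
  rw [e1]
  have e2 : ((if e = 0 then α else 0) - 2 * δ0 * (η + (δ0 - b0) * α) / radL L S) * w k =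
      (if e = 0 then α * w k else 0) - 2 * (radL L S)⁻¹ * δ0 * ((η + (δ0 - b0) * α) * w k) := by
    split_ifs
    · field_simp
    · field_simp; ring
  rw [e2]
  refine Eqv.sub ?_ ((((eqv_C 2).mul ((eqv_rad S).inv hrL)).mul hΔ).mul (h1 k))
  split_ifs with he
  · subst he; simpa using hv k
  · exact eqv_kap_pow_mul (hv k).mem (by omega)

lemma root_exists (hsq : S_sqrt) [CharZero L] {D G : LaurentSeries L} {δ0 : L} (e : ℕ)
    (hD : D = kap ^ 2 * G) (hG : Eqv (kap ^ (2 * e) * G) (δ0 ^ 2)) (h0 : δ0 ≠ 0) :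
    ∃ Δ, (kap * Δ) ^ 2 = D ∧ Eqv (kap ^ e * Δ) δ0 := by
  obtain ⟨g, hg, hg'⟩ := sqrt_eqv hsq hG h0
  have hk : (kap : LaurentSeries L) ≠ 0 := kap_ne
  refine ⟨g / kap ^ e, ?_, ?_⟩
  · rw [hD]
    have h1 : (kap * (g / kap ^ e)) ^ 2 = kap ^ 2 * (g ^ 2 / kap ^ (2 * e)) := by
      field_simp
      ring
    rw [h1, hg]
    field_simp
  · have h1 : kap ^ e * (g / kap ^ e) = g := by field_simp
    rw [h1]; exact hg'

end Pool.Agent.W567.IV
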