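import Pool.Agent.W567.IV.Alg
import Pool.Agent.W567.IV.Stm

/-! Congruences modulo the uniformizer in Laurent series. -/

set_option autoImplicit false

open scoped Classical

namespace Pool.Agent.W567.IV

variable {L : Type} [Field L]

/-- the uniformizer -/
noncomputable def kap : LaurentSeries L := HahnSeries.single (1 : ℤ) (1 : L)

/-- the power series inside the Laurent series -/
noncomputable def OO (L : Type) [Field L] : Subring (LaurentSeries L) :=
  (HahnSeries.ofPowerSeries ℤ L).range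

/-- congruence to a constant modulo the uniformizer -/
def Eqv (x : LaurentSeries L) (a : L) : Prop := ∃ y ∈ OO L, x = HahnSeries.C a + kap * y

lemma kap_mem : (kap : LaurentSeries L) ∈ OO L := by
  refine ⟨PowerSeries.X, ?_⟩
  rw [HahnSeries.ofPowerSeries_X]; rfl

lemma C_mem (a : L) : (HahnSeries.C a : LaurentSeries L) ∈ OO L := by
  refine ⟨PowerSeries.C a, ?_⟩
  rw [HahnSeries.ofPowerSeries_C]

lemma kap_ne : (kap : LaurentSeries L) ≠ 0 := by
  unfold kap
  rw [Ne, HahnSeries.single_eq_zero_iff]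
  exact one_ne_zero

lemma Eqv.mem {x : LaurentSeries L} {a : L} (h : Eqv x a) : x ∈ OO L := by
  obtain ⟨y, hy, rfl⟩ := h
  exact (OO L).add_mem (C_mem a) ((OO L).mul_mem kap_mem hy)

lemma eqv_C (a : L) : Eqv (HahnSeries.C a : LaurentSeries L) a := ⟨0, (OO L).zero_mem, by simp⟩

lemma eqv_kap_mul {x : LaurentSeries L} (h : x ∈ OO L) : Eqv (kap * x) 0 := ⟨x, h, by simp⟩

lemma Eqv.add {x y : LaurentSeries L} {a b : L} (h : Eqv x a) (h' : Eqv y b) :
    Eqv (x + y) (a + b) := by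
  obtain ⟨u, hu, rfl⟩ := h
  obtain ⟨v, hv, rfl⟩ := h'
  exact ⟨u + v, (OO L).add_mem hu hv, by rw [map_add]; ring⟩

lemma Eqv.neg {x : LaurentSeries L} {a : L} (h : Eqv x a) : Eqv (-x) (-a) := by
  obtain ⟨u, hu, rfl⟩ := h
  exact ⟨-u, (OO L).neg_mem hu, by rw [map_neg]; ring⟩

lemma Eqv.sub {x y : LaurentSeries L} {a b : L} (h : Eqv x a) (h' : Eqv y b) :
    Eqv (x - y) (a - b) := by
  rw [sub_eq_add_neg, sub_eq_add_neg]; exact h.add h'.neg

lemma Eqv.mul {x y : LaurentSeries L} {a b : L} (h : Eqv x a) (h' : Eqv y b) :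
    Eqv (x * y) (a * b) := by
  have hy := h'.mem
  obtain ⟨u, hu, rfl⟩ := h
  obtain ⟨v, hv, rfl⟩ := h'
  refine ⟨u * (HahnSeries.C b + kap * v) + HahnSeries.C a * v,
    (OO L).add_mem ((OO L).mul_mem hu hy) ((OO L).mul_mem (C_mem a) hv), ?_⟩
  rw [map_mul]; ring

lemma Eqv.pow {x : LaurentSeries L} {a : L} (h : Eqv x a) (m : ℕ) : Eqv (x ^ m) (a ^ m) := by
  induction m with
  | zero => simpa using eqv_C (1 : L)
  | succ m ih => rw [pow_succ, pow_succ]; exact ih.mul h

lemma eqv_coeff {x : LaurentSeries L} {a : L} (h : Eqv x a) : x.coeff 0 = a := by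
  obtain ⟨y, ⟨f, rfl⟩, rfl⟩ := h
  rw [HahnSeries.coeff_add]
  have h1 : (HahnSeries.C a : LaurentSeries L).coeff 0 = a := by
    simp [HahnSeries.C_apply]
  have h2 : (kap * HahnSeries.ofPowerSeries ℤ L f).coeff 0 = 0 := by
    unfold kap
    have := HahnSeries.coeff_single_mul_add (r := (1 : L)) (x := HahnSeries.ofPowerSeries ℤ L f)
      (a := (-1 : ℤ)) (b := (1 : ℤ))
    rw [show (-1 : ℤ) + 1 = 0 by norm_num] at this
    rw [this, one_mul]
    rw [HahnSeries.ofPowerSeries_apply]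
    apply HahnSeries.embDomain_of_notMem_range
    rintro ⟨m, hm⟩
    simp at hm
  rw [h1, h2, add_zero]

lemma Eqv.unique {x : LaurentSeries L} {a b : L} (h : Eqv x a) (h' : Eqv x b) : a = b := by
  rw [← eqv_coeff h, ← eqv_coeff h']

lemma Eqv.ne {x : LaurentSeries L} {a : L} (h : Eqv x a) (ha : a ≠ 0) : x ≠ 0 := by
  rintro rfl
  have : Eqv (0 : LaurentSeries L) 0 := by simpa using eqv_C (0 : L)
  exact ha (h.unique this)

/-- inverses of units -/
lemma Eqv.inv {x : LaurentSeries L} {a : L} (h : Eqv x a) (ha : a ≠ 0) : Eqv x⁻¹ a⁻¹ := by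
  have hx := h.ne ha
  obtain ⟨f, hf⟩ := h.mem
  have hc : PowerSeries.constantCoeff f = a := by
    have := eqv_coeff h
    rw [← hf] at this
    rw [← this]
    have h2 := HahnSeries.ofPowerSeries_apply_coeff (Γ := ℤ) (R := L) f 0
    simpa using h2.symm
  have hu : f * f⁻¹ = 1 := PowerSeries.mul_inv_cancel f (by rw [hc]; exact ha)
  have hinv : x⁻¹ = HahnSeries.ofPowerSeries ℤ L f⁻¹ := by
    apply inv_eq_of_mul_eq_one_right
    rw [← hf, ← map_mul, hu, map_one]
  have hm : x⁻¹ ∈ OO L := ⟨f⁻¹, hinv.symm⟩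
  obtain ⟨y, hy, hxy⟩ := h
  refine ⟨-(x⁻¹ * y * HahnSeries.C a⁻¹), (OO L).neg_mem ((OO L).mul_mem ((OO L).mul_mem hm hy)
    (C_mem _)), ?_⟩
  have hC : (HahnSeries.C a : LaurentSeries L) * HahnSeries.C a⁻¹ = 1 := by
    rw [← map_mul, mul_inv_cancel₀ ha, map_one]
  have h3 : x⁻¹ * x = 1 := inv_mul_cancel₀ hx
  have h4 : kap * y = x - HahnSeries.C a := by rw [hxy]; ring
  calc x⁻¹ = x⁻¹ * (HahnSeries.C a * HahnSeries.C a⁻¹) := by rw [hC, mul_one]
    _ = HahnSeries.C a⁻¹ + -(x⁻¹ * (kap * y) * HahnSeries.C a⁻¹) := by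
        rw [h4]; linear_combination (HahnSeries.C a⁻¹ : LaurentSeries L) * h3
    _ = _ := by ring

lemma neg_coeff {x : LaurentSeries L} (h : x ∈ OO L) (m : ℤ) (hm : m < 0) : x.coeff m = 0 := by
  obtain ⟨f, rfl⟩ := h
  rw [HahnSeries.ofPowerSeries_apply]
  apply HahnSeries.embDomain_of_notMem_range
  rintro ⟨k, hk⟩
  simp at hk
  omega

lemma eqv_ofPS (f : PowerSeries L) :
    Eqv (HahnSeries.ofPowerSeries ℤ L f) (PowerSeries.constantCoeff f) := by
  refine ⟨HahnSeries.ofPowerSeries ℤ L (PowerSeries.mk fun p => PowerSeries.coeff (p + 1) f),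
    ⟨_, rfl⟩, ?_⟩
  conv_lhs => rw [PowerSeries.eq_X_mul_shift_add_const f]
  rw [map_add, map_mul, HahnSeries.ofPowerSeries_X, HahnSeries.ofPowerSeries_C, add_comm]
  rfl

lemma sqrt_eqv (hsq : S_sqrt) [CharZero L] {x : LaurentSeries L} {b : L} (h : Eqv x (b ^ 2))
    (hb : b ≠ 0) : ∃ g, g ^ 2 = x ∧ Eqv g b := by
  obtain ⟨f, hf⟩ := h.mem
  have hc : PowerSeries.constantCoeff f = b ^ 2 := by
    have h1 := eqv_ofPS f
    rw [hf] at h1
    exact h1.unique h
  obtain ⟨g, hg, hg'⟩ := hsq L f b hb hc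
  refine ⟨HahnSeries.ofPowerSeries ℤ L g, ?_, ?_⟩
  · rw [← map_pow, hg, hf]
  · have := eqv_ofPS g
    rw [hg'] at this
    exact this

lemma root_unique [CharZero L] {g h : LaurentSeries L} {b : L} (hb : b ≠ 0) (e : g ^ 2 = h ^ 2)
    (h1 : Eqv g b) (h2 : Eqv h b) : g = h := by
  have h3 : (g - h) * (g + h) = 0 := by linear_combination e
  rcases mul_eq_zero.mp h3 with h4 | h4
  · exact sub_eq_zero.mp h4
  · exfalso
    have h5 := (h1.add h2).ne (by intro h6; apply hb; linear_combination h6 / 2)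
    exact h5 h4

lemma nonsq {y : LaurentSeries L} {a : L} (h : Eqv y a) (ha : a ≠ 0) (g : LaurentSeries L) :
    g ^ 2 ≠ kap ^ 3 * y := by
  intro e
  have hy : y ≠ 0 := h.ne ha
  have hk : (kap : LaurentSeries L) ^ 3 ≠ 0 := pow_ne_zero _ kap_ne
  have hg : g ≠ 0 := by
    rintro rfl
    rw [zero_pow two_ne_zero] at e
    exact mul_ne_zero hk hy e.symm
  have h1 : (g ^ 2).order = 2 * g.order := by
    rw [sq, HahnSeries.order_mul hg hg]; ring
  have h2 : (kap ^ 3 * y : LaurentSeries L).order = 3 + y.order := by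
    rw [HahnSeries.order_mul hk hy]
    congr 1
    have h3 : (kap : LaurentSeries L).order = 1 := by
      unfold kap; exact HahnSeries.order_single one_ne_zero
    rw [pow_succ, pow_two, HahnSeries.order_mul (mul_ne_zero kap_ne kap_ne) kap_ne,
      HahnSeries.order_mul kap_ne kap_ne, h3]
    norm_num
  have h4 : y.order = 0 := by
    apply le_antisymm
    · apply HahnSeries.order_le_of_coeff_ne_zero
      rw [eqv_coeff h]; exact ha
    · by_contra hlt
      push Not at hlt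
      have h5 := neg_coeff h.mem _ hlt
      exact hy (HahnSeries.coeff_order_eq_zero.mp h5)
  rw [e, h2, h4] at h1
  omega

end Pool.Agent.W567.IV
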