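import Pool.Agent.W567.IV.Core
import Pool.Agent.W460.IV.Dyn2

/-! Assembly: periodic points with spherical and flat bounce points form a null set. -/

set_option autoImplicit false

open scoped Classical
open MeasureTheory

namespace Pool.Agent.W567.IV

variable {n : ℕ}

/-- the condition of the germ equality of `{f = 0}` and a mirror at a point -/
def condM (f : EuclideanSpace ℝ (Fin n) → ℝ) : Mir n → EuclideanSpace ℝ (Fin n) → Prop
  | Sum.inl S, x => f x = 0 ↔ ∑ i, (x i - S.O i) ^ 2 = S.ρ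
  | Sum.inr H, x => f x = 0 ↔ ∑ i, H.ν i * x i = H.h

lemma onMir_iff (f : EuclideanSpace ℝ (Fin n) → ℝ) (p : EuclideanSpace ℝ (Fin n)) (m : Mir n) :
    OnMir f p m ↔ okM m ∧ ∀ᶠ x in nhds p, condM f m x := by
  cases m <;> rfl

lemma countable_family (f : EuclideanSpace ℝ (Fin n) → ℝ) :
    ∃ 𝒟 : Set (Mir n), 𝒟.Countable ∧ (∀ m ∈ 𝒟, okM m) ∧
      ∀ p, (∃ m, OnMir f p m) → ∃ m ∈ 𝒟, OnMir f p m := by
  let ι := {p : EuclideanSpace ℝ (Fin n) // ∃ m, OnMir f p m}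
  choose mm hmm using fun i : ι => i.2
  let V : ι → Set (EuclideanSpace ℝ (Fin n)) := fun i => interior {x | condM f (mm i) x}
  obtain ⟨T, hT, hTV⟩ := TopologicalSpace.isOpen_iUnion_countable V (fun i => isOpen_interior)
  refine ⟨mm '' T, hT.image _, ?_, ?_⟩
  · rintro m ⟨i, _, rfl⟩
    exact ((onMir_iff _ _ _).mp (hmm i)).1
  · intro p hp
    have h1 : p ∈ ⋃ i, V i := by
      refine Set.mem_iUnion.mpr ⟨⟨p, hp⟩, ?_⟩
      have h2 := ((onMir_iff _ _ _).mp (hmm ⟨p, hp⟩)).2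
      exact mem_interior_iff_mem_nhds.mpr h2
    rw [← hTV] at h1
    simp only [Set.mem_iUnion] at h1
    obtain ⟨i, hi, hpi⟩ := h1
    refine ⟨mm i, ⟨i, hi, rfl⟩, (onMir_iff _ _ _).mpr ⟨((onMir_iff _ _ _).mp (hmm i)).1, ?_⟩⟩
    exact mem_interior_iff_mem_nhds.mp hpi

/-- the conditions on a billiard orbit at the time `k` (as in the problem) -/
def Step (f : EuclideanSpace ℝ (Fin n) → ℝ) (p u : ℕ → EuclideanSpace ℝ (Fin n)) (k : ℕ) : Prop :=
  f (p k) = 0 ∧ ‖u k‖ = 1 ∧ inner ℝ (u k) (gradient f (p k)) < 0 ∧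
        (∃ t : ℝ, 0 < t ∧ p (k + 1) = p k + t • u k) ∧
        u (k + 1) = u k - (2 * inner ℝ (u k) (gradient f (p (k + 1))) /
                ‖gradient f (p (k + 1))‖ ^ 2) • gradient f (p (k + 1))

/-- periodic points with prescribed mirrors -/
def ZD (f : EuclideanSpace ℝ (Fin n) → ℝ) (N : ℕ) (D : ℕ → Mir n) :
    Set (EuclideanSpace ℝ (Fin n) × EuclideanSpace ℝ (Fin n)) :=
  {q | ∃ p u : ℕ → EuclideanSpace ℝ (Fin n), p 0 = q.1 ∧ u 0 = q.2 ∧ p N = q.1 ∧ u N = q.2 ∧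
    ∀ k < N, Step f p u k ∧ OnMir f (p k) (D k)}

theorem ZD_null (hm : S_meas) (hm2 : S_meas2) (hg : S_germ2) (hs : S_spec2) (hu : S_univ)
    (hd : S_dyn2) (hn : 2 ≤ n) (f : EuclideanSpace ℝ (Fin n) → ℝ) (hf : Differentiable ℝ f)
    (hf0 : ∀ x, f x = 0 → gradient f x ≠ 0) (N : ℕ) (hN : 1 ≤ N) (D : ℕ → Mir n)
    (hD : ∀ k, okM (D k)) (hDN : D N = D 0) :
    Measure.hausdorffMeasure ((2 * n - 2 : ℕ) : ℝ) (ZD f N D) = 0 := by
  obtain ⟨P, hP, hP'⟩ := poly_of_D hg hs hu hn D hD N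
  -- the polynomial vanishes on all parametrisations
  have key : ∀ q ∈ ZD f N D, ∀ t c : ℝ, 0 < c →
      MvPolynomial.eval (Sum.elim (fun k => ((q.1 k + t * q.2 k : ℝ) : ℂ))
            (fun k => ((c * q.2 k : ℝ) : ℂ))) P = 0 := by
    rintro q ⟨p, u, h0, h1, h2, h3, hk⟩ t c hc
    obtain ⟨T, hT, hch⟩ := hd n f hf hf0 N hN p u D (h2.trans h0.symm) (h3.trans h1.symm) hDN
      (fun k hkN => ⟨(hk k hkN).1.1, (hk k hkN).1.2.1, (hk k hkN).1.2.2.1, (hk k hkN).1.2.2.2.1,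
        (hk k hkN).1.2.2.2.2, (hk k hkN).2⟩)
    obtain ⟨ch, g1, g2, g3⟩ := hch t c hc
    have hu1 : ‖u 0‖ = 1 := (hk 0 (by omega)).1.2.1
    have hv : (fun k => c * u 0 k) ≠ 0 := by
      intro h
      have h5 : u 0 = 0 := by
        ext k
        have := congrFun h k
        simp only [Pi.zero_apply, mul_eq_zero] at this
        exact this.resolve_left hc.ne'
      rw [h5, norm_zero] at hu1
      exact zero_ne_one hu1
    have h6 := hP' (fun k => p 0 k + t * u 0 k) (fun k => c * u 0 k) ch (T / c)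
      (div_ne_zero hT.ne' hc.ne') hv g1 g2 (by
        rw [g3]
        have e1 : (fun k => p 0 k + t * u 0 k) - (T / c) • (fun k => c * u 0 k) =
            (fun j => p 0 j - (T - t) * u 0 j) := by
          funext j
          simp only [Pi.sub_apply, Pi.smul_apply, smul_eq_mul]
          field_simp
          ring
        rw [e1])
    rw [← h0, ← h1]
    exact h6
  cases hD0 : D 0 with
  | inl S =>
    have hSρ : 0 < S.ρ := by have := hD 0; rw [hD0] at this; exact this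
    refine hm n hn (W973.IV.ce S) (Real.sqrt S.ρ) (Real.sqrt_pos.mpr hSρ) P hP _ ?_
    rintro q hq
    refine ⟨?_, ?_, ?_, key q hq⟩
    all_goals
      obtain ⟨p, u, h0, h1, h2, h3, hk⟩ := hq
      obtain ⟨⟨a1, a2, a3, -, -⟩, a6⟩ := hk 0 (by omega)
      rw [hD0] at a6
      obtain ⟨-, a7⟩ := a6
      simp only [W973.IV.sum_sq] at a7
      have hp : ‖p 0 - W973.IV.ce S‖ ^ 2 = S.ρ := a7.self_of_nhds.1 a1
    · rw [← h0, ← hp, Real.sqrt_sq (norm_nonneg _)]
    · rw [← h1]; exact a2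
    · have hr := W973.IV.grad_radial hf hSρ a7 hp
      intro h9
      rw [← h0, ← h1] at h9
      have h9' := h9
      rw [real_inner_comm] at h9'
      rw [hr, real_inner_smul_right, h9', mul_zero] at a3
      exact lt_irrefl _ a3
  | inr H =>
    have hHν : H.ν ⬝ᵥ H.ν = 1 := by have := hD 0; rw [hD0] at this; exact this
    set νE : EuclideanSpace ℝ (Fin n) := WithLp.toLp 2 H.ν with hνE
    have hνν : inner ℝ νE νE = 1 := by
      rw [PiLp.inner_apply, ← hHν]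
      simp [dotProduct, hνE, sq]
    have hν1 : ‖νE‖ = 1 := by
      rw [real_inner_self_eq_norm_sq] at hνν
      have h8 := norm_nonneg νE
      nlinarith
    refine hm2 n hn νE H.h hν1 P hP _ ?_
    rintro q hq
    refine ⟨?_, ?_, ?_, key q hq⟩
    all_goals
      obtain ⟨p, u, h0, h1, h2, h3, hk⟩ := hq
      obtain ⟨⟨a1, a2, a3, -, -⟩, a6⟩ := hk 0 (by omega)
      rw [hD0] at a6
      obtain ⟨-, a7⟩ := a6
      have e1 : ∀ x : EuclideanSpace ℝ (Fin n), ∑ i, H.ν i * x i = inner ℝ νE x := by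
        intro x
        rw [PiLp.inner_apply]
        refine Finset.sum_congr rfl (fun i _ => ?_)
        simp [hνE, mul_comm]
      simp only [e1] at a7
      have hp : inner ℝ νE (p 0) = H.h := a7.self_of_nhds.1 a1
    · rw [← h0]; exact hp
    · rw [← h1]; exact a2
    · have hr := Pool.Agent.W460.IV.grad_flat hf hνν a7 hp
      intro h9
      rw [← h1] at h9
      have h9' := h9
      rw [real_inner_comm] at h9'
      rw [hr, real_inner_smul_right, h9', mul_zero] at a3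
      exact lt_irrefl _ a3

/-- the periodic points all of whose bounce points are spherical or flat -/
def PerU (f : EuclideanSpace ℝ (Fin n) → ℝ) :
    Set (EuclideanSpace ℝ (Fin n) × EuclideanSpace ℝ (Fin n)) :=
  {q | ∃ N : ℕ, 1 ≤ N ∧ ∃ p u : ℕ → EuclideanSpace ℝ (Fin n), p 0 = q.1 ∧ u 0 = q.2 ∧
    p N = q.1 ∧ u N = q.2 ∧ ∀ k < N, Step f p u k ∧ ∃ m, OnMir f (p k) m}

theorem PerU_null (hm : S_meas) (hm2 : S_meas2) (hg : S_germ2) (hs : S_spec2) (hu : S_univ)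
    (hd : S_dyn2) (hn : 2 ≤ n) (f : EuclideanSpace ℝ (Fin n) → ℝ) (hf : Differentiable ℝ f)
    (hf0 : ∀ x, f x = 0 → gradient f x ≠ 0) :
    Measure.hausdorffMeasure ((2 * n - 2 : ℕ) : ℝ) (PerU f) = 0 := by
  obtain ⟨𝒟, h𝒟c, h𝒟ok, h𝒟⟩ := countable_family f
  have hct : Countable 𝒟 := h𝒟c
  -- words
  have hsub : PerU f ⊆ ⋃ (N : ℕ) (w : Fin (N + 1) → 𝒟),
      ZD f (N + 1) (fun k => (w (Fin.ofNat (N + 1) k) : Mir n)) := by
    rintro q ⟨N, hN, p, u, h0, h1, h2, h3, hk⟩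
    obtain ⟨M, rfl⟩ : ∃ M, N = M + 1 := ⟨N - 1, by omega⟩
    have hw : ∀ i : Fin (M + 1), ∃ m : 𝒟, OnMir f (p i) m := by
      intro i
      obtain ⟨m, hm1, hm2⟩ := h𝒟 (p i) (hk i i.2).2
      exact ⟨⟨m, hm1⟩, hm2⟩
    choose w hw using hw
    refine Set.mem_iUnion₂.mpr ⟨M, w, p, u, h0, h1, h2, h3, ?_⟩
    intro k hkM
    refine ⟨(hk k hkM).1, ?_⟩
    have h5 := hw (Fin.ofNat (M + 1) k)
    have h6 : ((Fin.ofNat (M + 1) k : Fin (M + 1)) : ℕ) = k := by
      simp [Fin.ofNat, Nat.mod_eq_of_lt hkM]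
    rw [h6] at h5
    exact h5
  refine measure_mono_null hsub ?_
  rw [measure_iUnion_null_iff]
  intro N
  rw [measure_iUnion_null_iff]
  intro w
  refine ZD_null hm hm2 hg hs hu hd hn f hf hf0 (N + 1) (by omega) _ ?_ ?_
  · intro k
    exact h𝒟ok _ (w _).2
  · have : (Fin.ofNat (N + 1) (N + 1) : Fin (N + 1)) = Fin.ofNat (N + 1) 0 := by
      ext
      simp [Fin.ofNat]
    simp only [this]

end Pool.Agent.W567.IV
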