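import Pool.Agent.W567.IV.Spec
import Pool.Agent.W567.IV.Univ

/-! There is no generic closed chain. -/

set_option autoImplicit false

open scoped Classical

namespace Pool.Agent.W567.IV

variable {n : ℕ}

lemma castM_map {F F' : Type} [Field F] [Algebra ℂ F] [Field F'] [Algebra ℂ F'] (φ : F →ₐ[ℂ] F')
    (A : Matrix (Fin n) (Fin n) ℝ) (v : Fin n → F) :
    φ ∘ ((castM F A).mulVec v) = (castM F' A).mulVec (φ ∘ v) := by
  funext k
  simp [castM, Matrix.mulVec, dotProduct, map_sum]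

lemma closed_map {F F' : Type} [Field F] [Algebra ℂ F] [Field F'] [Algebra ℂ F'] (φ : F →ₐ[ℂ] F')
    (A : Matrix (Fin n) (Fin n) ℝ) (c : Ch n F) (l : Line n F) :
    (endl c l).2 = (castM F A).mulVec l.2 ↔
      (endl (mapC φ c) (mapL φ l)).2 = (castM F' A).mulVec (mapL φ l).2 := by
  rw [endl_map]
  show _ ↔ φ ∘ (endl c l).2 = (castM F' A).mulVec (φ ∘ l.2)
  rw [← castM_map]
  refine ⟨fun h => by rw [h], fun h => ?_⟩
  funext k
  exact φ.toRingHom.injective (congrFun h k)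

theorem no_closed (hs : S_spec2) (hu : S_univ) (hn : 2 ≤ n) (W : List (Sph n)) (hW0 : W ≠ [])
    (hW : ∀ T ∈ W, 0 < T.ρ) (A : Matrix (Fin n) (Fin n) ℝ) (hA : A.det ≠ 0)
    (F : Type) [Field F] [Algebra ℂ F] (l : Line n F) (c : Ch n F) (hG : Gen l)
    (hc : c.map Prod.fst = W) (hv : Val c l) : (endl c l).2 ≠ (castM F A).mulVec l.2 := by
  intro hcl
  obtain ⟨U, iU, iUA, lU, cU, -, hcU, -, hU⟩ := hu n hn W hW
  obtain ⟨φ, ⟨h1, h2⟩, h3⟩ := hU F l c hG hc hv
  have hl : mapL φ lU = l := Prod.ext h1 h2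
  have hc' : mapC φ cU = c := h3
  have hclU : (endl cU lU).2 = (castM U A).mulVec lU.2 := by
    rw [closed_map φ A, hl, hc']; exact hcl
  match W, hW0 with
  | (T :: W), _ =>
    -- a dummy sphere with another centre
    let S : Sph n := ⟨fun k => T.O k + 1, 1⟩
    have hTS : T.O ≠ S.O := by
      intro h
      have := congrFun h ⟨0, by omega⟩
      simp [S] at this
    have hF : Fresh S (T :: W) := fun h => absurd h hTS
    obtain ⟨F1, i1, i1A, l1, c1, hG1, hc1, hv1, -, hne⟩ := hs n hn (T :: W) S hW one_pos hF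
    obtain ⟨ψ, ⟨k1, k2⟩, k3⟩ := hU F1 l1 c1 hG1 hc1 hv1
    have hl1 : mapL ψ lU = l1 := Prod.ext k1 k2
    have hc1' : mapC ψ cU = c1 := k3
    apply hne T rfl hTS A hA
    rw [← hl1, ← hc1', ← closed_map ψ A]
    exact hclU

end Pool.Agent.W567.IV
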