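import Pool.Agent.W567.IV.Back2
import Pool.Agent.W567.IV.Stm2
import Mathlib.FieldTheory.AlgebraicClosure

/-! Special generic chains. -/

set_option autoImplicit false

open scoped Classical

set_option linter.unusedSectionVars false

namespace Pool.Agent.W567.IV

variable {n : ℕ}

section algebraic
variable {F : Type} [Field F] [Algebra ℂ F] (K : IntermediateField ℂ F)

lemma dot_mem_A (A : IntermediateField K F) {x y : Fin n → F} (hx : ∀ k, x k ∈ A)
    (hy : ∀ k, y k ∈ A) : x ⬝ᵥ y ∈ A := by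
  unfold dotProduct
  exact sum_mem (fun i _ => mul_mem (hx i) (hy i))

lemma alg_chain (c : Ch n F) (l : Line n F) (hv : Val c l)
    (h : ∀ k, l.1 k ∈ algebraicClosure K F ∧ l.2 k ∈ algebraicClosure K F) :
    ∀ k, (endl c l).1 k ∈ algebraicClosure K F ∧ (endl c l).2 k ∈ algebraicClosure K F := by
  induction c with
  | nil => exact h
  | cons p c ih =>
    have ih' := ih hv.1
    set l2 := endl c l with hl2
    have hconst : ∀ z : ℂ, algebraMap ℂ F z ∈ algebraicClosure K F := by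
      intro z
      have : algebraMap ℂ F z = algebraMap K F (algebraMap ℂ K z) := rfl
      rw [this]
      exact (algebraicClosure K F).algebraMap_mem _
    have hu : ∀ k, (l2.1 - p.1.ctr F) k ∈ algebraicClosure K F := by
      intro k
      exact sub_mem (ih' k).1 (hconst _)
    have hvv : ∀ k, l2.2 k ∈ algebraicClosure K F := fun k => (ih' k).2
    have hr : p.1.rad F ∈ algebraicClosure K F := hconst _
    have hD : DD p.1 l2 ∈ algebraicClosure K F := by
      unfold DD
      exact sub_mem (pow_mem (dot_mem_A K _ hu hvv) 2)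
        (mul_mem (dot_mem_A K _ hvv hvv) (sub_mem (dot_mem_A K _ hu hu) hr))
    have hδ : p.2 ∈ algebraicClosure K F := by
      rw [← hv.2.1] at hD
      rw [mem_algebraicClosure_iff] at hD ⊢
      exact IsAlgebraic.of_pow two_pos hD
    have ht : tau p.1 p.2 l2 ∈ algebraicClosure K F := by
      unfold tau
      exact div_mem (sub_mem hδ (dot_mem_A K _ hu hvv)) (dot_mem_A K _ hvv hvv)
    have hY : ∀ k, YY p.1 p.2 l2 k ∈ algebraicClosure K F := by
      intro k
      unfold YY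
      exact add_mem (hu k) (mul_mem ht (hvv k))
    have h2 : (2 : F) ∈ algebraicClosure K F := by
      have := hconst 2
      rwa [map_ofNat] at this
    intro k
    refine ⟨?_, ?_⟩
    · show (RR p.1 p.2 l2).1 k ∈ _
      simp only [RR, Pi.add_apply, Pi.smul_apply, smul_eq_mul]
      exact add_mem (ih' k).1 (mul_mem (mul_mem ht (div_mem (mul_mem h2 hδ) hr)) (hY k))
    · show (RR p.1 p.2 l2).2 k ∈ _
      simp only [RR, Pi.sub_apply, Pi.smul_apply, smul_eq_mul]
      exact sub_mem (ih' k).2 (mul_mem (div_mem (mul_mem h2 hδ) hr) (hY k))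

lemma Gen_of_end (htr : S_tr) (c : Ch n F) (l : Line n F) (hv : Val c l) (hG : Gen (endl c l)) :
    Gen l := by
  unfold Gen at hG ⊢
  refine htr (Fin n ⊕ Fin n) F _ _ hG ?_
  intro K hK i
  have h := alg_chain K c l hv (by
    intro k
    refine ⟨?_, ?_⟩
    · exact (algebraicClosure K F).algebraMap_mem ⟨l.1 k, hK (Sum.inl k)⟩
    · exact (algebraicClosure K F).algebraMap_mem ⟨l.2 k, hK (Sum.inr k)⟩)
  cases i with
  | inl k => exact mem_algebraicClosure_iff.mp (h k).1
  | inr k => exact mem_algebraicClosure_iff.mp (h k).2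

end algebraic

theorem spec2_of (hsq : S_sqrt) (htr : S_tr) (hgen : S_gen) (hw : S_w) : S_spec2 := by
  intro n hn W S hW hSρ hF
  -- the isotropic vector
  obtain ⟨w, w', hww, hww', hw2, hsep⟩ := hw n hn
    ((S :: W).flatMap (fun T => ((S :: W).filter (fun T' => T.O ≠ T'.O)).map
      (fun T' k => T.O k - T'.O k))) (by
      intro c hc
      rw [List.mem_flatMap] at hc
      obtain ⟨T, _, hc⟩ := hc
      rw [List.mem_map] at hc
      obtain ⟨T', hT', rfl⟩ := hc
      rw [List.mem_filter] at hT'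
      have h2 := hT'.2
      simp only [ne_eq, decide_not, Bool.not_eq_eq_eq_not, Bool.not_true, decide_eq_false_iff_not]
        at h2
      intro h0
      apply h2
      funext k
      have := congrFun h0 k
      simp only [Pi.zero_apply] at this
      linarith)
  obtain ⟨L, iL, iA, a, ha⟩ := hgen (Fin n ⊕ Fin n)
  have hcz : CharZero L := charZero_of_injective_algebraMap (algebraMap ℂ L).injective
  have hczF : CharZero (LaurentSeries L) :=
    charZero_of_injective_algebraMap (algebraMap ℂ (LaurentSeries L)).injective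
  -- constants
  obtain ⟨tc, htc⟩ := IsAlgClosed.exists_pow_nat_eq (-((S.ρ : ℝ) : ℂ)) (n := 2) two_pos
  choose rt hrt using fun x : ℝ =>
    IsAlgClosed.exists_pow_nat_eq (((x : ℝ) : ℂ) - ((S.ρ : ℝ) : ℂ)) (n := 2) two_pos
  have htc0 : tc ≠ 0 := by
    rintro rfl
    have : ((S.ρ : ℝ) : ℂ) = 0 := by linear_combination htc
    exact hSρ.ne' (by exact_mod_cast this)
  let wL : Fin n → L := fun k => algebraMap ℂ L (w k)
  let A : Set (Fin n → ℝ) := {O | ∃ T ∈ S :: W, T.O = O}
  have hA : Sep wL A := by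
    rintro a ⟨T, hT, rfl⟩ b ⟨T', hT', rfl⟩ hab
    have h1 := hsep (fun k => T.O k - T'.O k) (by
      rw [List.mem_flatMap]
      refine ⟨T, hT, ?_⟩
      rw [List.mem_map]
      refine ⟨T', ?_, rfl⟩
      rw [List.mem_filter]
      exact ⟨hT', by simpa using hab⟩)
    have h2 : (cv L T.O - cv L T'.O) ⬝ᵥ wL =
        algebraMap ℂ L ((fun i => (((T.O i - T'.O i : ℝ)) : ℂ)) ⬝ᵥ w) := by
      simp only [dotProduct, map_sum, map_mul, Pi.sub_apply, cv, wL]
      refine Finset.sum_congr rfl (fun k _ => ?_)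
      rw [Complex.ofReal_sub, map_sub]
    rw [h2]
    rw [Ne, FaithfulSMul.algebraMap_eq_zero_iff]
    exact h1
  -- the special line
  let P : Fin n ⊕ Fin n → Polynomial ℂ := Sum.elim
    (fun k => Polynomial.C ((S.O k : ℝ) : ℂ) +
      Polynomial.X * (Polynomial.C tc + Polynomial.X) * Polynomial.C (w' k / 2))
    (fun k => Polynomial.C (w k) + Polynomial.X ^ 2 * Polynomial.C (w' k / 4))
  have hgen4 := ha P 4
  let l : Line n (LaurentSeries L) :=
    (fun k => Polynomial.aeval (kap : LaurentSeries L) (P (Sum.inl k)) +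
      kap ^ 4 * HahnSeries.C (a (Sum.inl k)),
     fun k => Polynomial.aeval (kap : LaurentSeries L) (P (Sum.inr k)) +
      kap ^ 4 * HahnSeries.C (a (Sum.inr k)))
  have hGl : Gen l := by
    unfold Gen
    convert hgen4 using 1
    · funext i
      cases i <;> rfl
    · rfl
  -- explicit form
  let cc : ℂ → LaurentSeries L := algebraMap ℂ (LaurentSeries L)
  let W1 : Fin n → LaurentSeries L := fun k => cc (w k)
  let W2 : Fin n → LaurentSeries L := fun k => cc (w' k)
  let a1 : Fin n → LaurentSeries L := fun k => HahnSeries.C (a (Sum.inl k))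
  let a2 : Fin n → LaurentSeries L := fun k => HahnSeries.C (a (Sum.inr k))
  have hl1 : l.1 - S.ctr (LaurentSeries L) =
      ((kap : LaurentSeries L) * (cc tc + kap) * cc (1 / 2)) • W2 +
        ((kap : LaurentSeries L) ^ 4) • a1 := by
    funext k
    simp only [l, P, Sum.elim_inl, map_add, map_mul, Polynomial.aeval_X, Polynomial.aeval_C,
      Pi.sub_apply, Pi.add_apply, Pi.smul_apply, smul_eq_mul, W2, a1, cc, Sph.ctr]
    have : (w' k / 2 : ℂ) = 1 / 2 * w' k := by ring
    rw [this, map_mul]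
    ring
  have hl2 : l.2 = W1 + ((kap : LaurentSeries L) ^ 2 * cc (1 / 4)) • W2 +
      ((kap : LaurentSeries L) ^ 4) • a2 := by
    funext k
    simp only [l, P, Sum.elim_inr, map_add, map_mul, map_pow, Polynomial.aeval_X,
      Polynomial.aeval_C, Pi.add_apply, Pi.smul_apply, smul_eq_mul, W1, W2, a2, cc]
    have : (w' k / 4 : ℂ) = 1 / 4 * w' k := by ring
    rw [this, map_mul]
    ring
  have hW11 : W1 ⬝ᵥ W1 = 0 := by
    have : W1 ⬝ᵥ W1 = cc (w ⬝ᵥ w) := by simp only [dotProduct, W1, cc, map_sum, map_mul]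
    rw [this, hww]; exact map_zero _
  have hW22 : W2 ⬝ᵥ W2 = 0 := by
    have : W2 ⬝ᵥ W2 = cc (w' ⬝ᵥ w') := by simp only [dotProduct, W2, cc, map_sum, map_mul]
    rw [this, hww']; exact map_zero _
  have hW12 : W1 ⬝ᵥ W2 = 2 := by
    have : W1 ⬝ᵥ W2 = cc (w ⬝ᵥ w') := by simp only [dotProduct, W1, W2, cc, map_sum, map_mul]
    rw [this, hw2]; exact map_ofNat _ 2
  have hc2 : cc (1 / 2) = 1 / 2 := by
    show algebraMap ℂ (LaurentSeries L) (1 / 2) = 1 / 2
    rw [map_div₀, map_one, map_ofNat]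
  have hc4 : cc (1 / 4) = 1 / 4 := by
    show algebraMap ℂ (LaurentSeries L) (1 / 4) = 1 / 4
    rw [map_div₀, map_one, map_ofNat]
  have hcct : (cc tc) ^ 2 = - S.rad (LaurentSeries L) := by
    show (algebraMap ℂ (LaurentSeries L) tc) ^ 2 = _
    rw [← map_pow, htc, map_neg]; rfl
  have hmW1 : ∀ k, W1 k ∈ OO L := fun k => (eqv_alg (w k)).mem
  have hmW2 : ∀ k, W2 k ∈ OO L := fun k => (eqv_alg (w' k)).mem
  have hma1 : ∀ k, a1 k ∈ OO L := fun k => C_mem _
  have hma2 : ∀ k, a2 k ∈ OO L := fun k => C_mem _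
  have hmt : cc tc ∈ OO L := (eqv_alg tc).mem
  have hm2 : (1 / 2 : LaurentSeries L) ∈ OO L := by rw [← hc2]; exact (eqv_alg (1 / 2)).mem
  have hm4 : (1 / 4 : LaurentSeries L) ∈ OO L := by rw [← hc4]; exact (eqv_alg (1 / 4)).mem
  have hmk : (kap : LaurentSeries L) ∈ OO L := kap_mem
  have hmtk : (cc tc + kap) ∈ OO L := (OO L).add_mem hmt hmk
  -- scalar products
  set E1 : LaurentSeries L := kap * (cc tc + kap) * (1 / 2) * (W2 ⬝ᵥ a2) + W1 ⬝ᵥ a1 +
    kap ^ 2 * (1 / 4) * (W2 ⬝ᵥ a1) + kap ^ 4 * (a1 ⬝ᵥ a2) with hE1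
  set E2 : LaurentSeries L := W1 ⬝ᵥ a2 + W1 ⬝ᵥ a2 + kap ^ 2 * (1 / 2) * (W2 ⬝ᵥ a2) +
    kap ^ 4 * (a2 ⬝ᵥ a2) with hE2
  set E3 : LaurentSeries L := (cc tc + kap) * (W2 ⬝ᵥ a1) + kap ^ 3 * (a1 ⬝ᵥ a1) with hE3
  have hE1m : E1 ∈ OO L := by
    refine (OO L).add_mem ((OO L).add_mem ((OO L).add_mem ?_ (mem_dot hmW1 hma1)) ?_) ?_
    · exact (OO L).mul_mem ((OO L).mul_mem ((OO L).mul_mem hmk hmtk) hm2) (mem_dot hmW2 hma2)
    · exact (OO L).mul_mem ((OO L).mul_mem (kap_pow_mem 2) hm4) (mem_dot hmW2 hma1)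
    · exact (OO L).mul_mem (kap_pow_mem 4) (mem_dot hma1 hma2)
  have hE2m : E2 ∈ OO L := by
    refine (OO L).add_mem ((OO L).add_mem ((OO L).add_mem (mem_dot hmW1 hma2)
      (mem_dot hmW1 hma2)) ?_) ?_
    · exact (OO L).mul_mem ((OO L).mul_mem (kap_pow_mem 2) hm2) (mem_dot hmW2 hma2)
    · exact (OO L).mul_mem (kap_pow_mem 4) (mem_dot hma2 hma2)
  have hE3m : E3 ∈ OO L :=
    (OO L).add_mem ((OO L).mul_mem hmtk (mem_dot hmW2 hma1))
      ((OO L).mul_mem (kap_pow_mem 3) (mem_dot hma1 hma1))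
  have hb : (l.1 - S.ctr (LaurentSeries L)) ⬝ᵥ l.2 = kap * ((cc tc + kap) + kap ^ 3 * E1) := by
    rw [hl1, hl2, hE1, hc2, hc4]
    simp only [add_dotProduct, dotProduct_add, smul_dotProduct, dotProduct_smul, smul_eq_mul]
    rw [dotProduct_comm W2 W1, dotProduct_comm a1 W1, dotProduct_comm a1 W2, hW12, hW22]
    ring
  have hqq : l.2 ⬝ᵥ l.2 = kap ^ 2 * (1 + kap ^ 2 * E2) := by
    rw [hl2, hE2, hc4]
    simp only [add_dotProduct, dotProduct_add, smul_dotProduct, dotProduct_smul, smul_eq_mul]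
    rw [dotProduct_comm W2 W1, dotProduct_comm a2 W1, dotProduct_comm a2 W2, hW12, hW22, hW11]
    ring
  have haa : (l.1 - S.ctr (LaurentSeries L)) ⬝ᵥ (l.1 - S.ctr (LaurentSeries L)) =
      kap ^ 5 * E3 := by
    rw [hl1, hE3, hc2]
    simp only [add_dotProduct, dotProduct_add, smul_dotProduct, dotProduct_smul, smul_eq_mul]
    rw [dotProduct_comm a1 W2, hW22]
    ring
  have hDD : DD S l = kap ^ 3 * (2 * cc tc + kap * (1 + S.rad _ * E2 +
      2 * kap * (cc tc + kap) * E1 + kap ^ 4 * E1 ^ 2 - kap ^ 3 * E3 - kap ^ 5 * E2 * E3)) := by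
    unfold DD
    rw [hb, hqq, haa]
    linear_combination kap ^ 2 * hcct
  have hradm : S.rad (LaurentSeries L) ∈ OO L := (eqv_rad S).mem
  have h2m : (2 : LaurentSeries L) ∈ OO L := by
    have := (eqv_alg (L := L) 2).mem
    rwa [map_ofNat] at this
  have hE4 : (1 + S.rad _ * E2 +
      2 * kap * (cc tc + kap) * E1 + kap ^ 4 * E1 ^ 2 - kap ^ 3 * E3 - kap ^ 5 * E2 * E3) ∈ OO L := by
    refine (OO L).sub_mem ((OO L).sub_mem ((OO L).add_mem ((OO L).add_mem ((OO L).add_mem
      (OO L).one_mem ?_) ?_) ?_) ?_) ?_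
    · exact (OO L).mul_mem hradm hE2m
    · exact (OO L).mul_mem ((OO L).mul_mem ((OO L).mul_mem h2m hmk) hmtk) hE1m
    · exact (OO L).mul_mem (kap_pow_mem 4) (Subring.pow_mem _ hE1m 2)
    · exact (OO L).mul_mem (kap_pow_mem 3) hE3m
    · exact (OO L).mul_mem ((OO L).mul_mem (kap_pow_mem 5) hE2m) hE3m
  have hDE : Eqv (2 * cc tc + kap * (1 + S.rad _ * E2 +
      2 * kap * (cc tc + kap) * E1 + kap ^ 4 * E1 ^ 2 - kap ^ 3 * E3 - kap ^ 5 * E2 * E3))
      (algebraMap ℂ L (2 * tc)) := by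
    have h1 : (2 : LaurentSeries L) * cc tc = algebraMap ℂ (LaurentSeries L) (2 * tc) := by
      rw [map_mul, map_ofNat]
    rw [h1]
    have h2 := (eqv_alg (L := L) (2 * tc)).add (eqv_kap_mul hE4)
    rwa [add_zero] at h2
  have h2tc : algebraMap ℂ L (2 * tc) ≠ 0 := by
    rw [Ne, FaithfulSMul.algebraMap_eq_zero_iff]
    exact mul_ne_zero two_ne_zero htc0
  have hSm : Sm wL S (algebraMap ℂ L tc) (-(algebraMap ℂ L tc)) 1 l := by
    refine ⟨one_ne_zero, ?_, ?_, ?_, ?_, ?_⟩
    · intro k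
      rw [hl2]
      simp only [Pi.add_apply, Pi.smul_apply, smul_eq_mul]
      have h1 : Eqv (W1 k) (wL k) := eqv_alg (w k)
      have h2 : Eqv (kap ^ 2 * cc (1 / 4) * W2 k) 0 := by
        rw [mul_assoc]
        exact eqv_kap_pow_mul ((OO L).mul_mem (eqv_alg (1 / 4)).mem (hmW2 k)) (by norm_num)
      have h3 : Eqv (kap ^ 4 * a2 k) 0 := eqv_kap_pow_mul (hma2 k) (by norm_num)
      have h4 := (h1.add h2).add h3
      have h5 : wL k + 0 + 0 = 1 * wL k := by ring
      rw [h5] at h4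
      exact h4
    · refine ⟨_, hb, ?_⟩
      rw [neg_neg]
      have h1 : Eqv (cc tc) (algebraMap ℂ L tc) := eqv_alg tc
      have h2 : Eqv (kap : LaurentSeries L) 0 := by
        have := eqv_kap_mul (L := L) (OO L).one_mem
        rwa [mul_one] at this
      have h4 := (h1.add h2).add (eqv_kap_pow_mul (m := 3) hE1m (by norm_num))
      rwa [add_zero, add_zero] at h4
    · intro k
      rw [neg_add_cancel, neg_zero, zero_mul, zero_mul]
      rw [hl1]
      refine eqv_kap_mul ?_
      simp only [Pi.add_apply, Pi.smul_apply, smul_eq_mul]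
      exact (OO L).add_mem ((OO L).mul_mem ((OO L).mul_mem ((OO L).mul_mem hmk hmtk)
        (eqv_alg (1 / 2)).mem) (hmW2 k)) ((OO L).mul_mem (kap_pow_mem 4) (hma1 k))
    · exact ⟨_, hDE.mem, hDD⟩
    · refine ⟨_, hqq, ?_⟩
      have h1 := (eqv_C (1 : L)).add (eqv_kap_pow_mul (m := 2) hE2m (by norm_num))
      rw [map_one, add_zero] at h1
      exact h1
  obtain ⟨c, l0, g1, g2, g3, g4, -, g6⟩ := back_small hsq wL A hA S ⟨S, List.mem_cons_self, rfl⟩
    (algebraMap ℂ L tc) (by rw [← map_pow, htc, map_neg]; rfl)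
    (fun x => algebraMap ℂ L (rt x))
    (by intro T; rw [← map_pow, hrt, map_sub]; rfl)
    (by
      intro T hT h0
      rw [FaithfulSMul.algebraMap_eq_zero_iff] at h0
      have h1 := hrt T.ρ
      rw [h0, zero_pow two_ne_zero] at h1
      apply hT
      have h2 : ((T.ρ : ℝ) : ℂ) = ((S.ρ : ℝ) : ℂ) := by linear_combination -h1
      exact_mod_cast h2)
    W (fun T hT => ⟨hW T hT, T, List.mem_cons_of_mem _ hT, rfl⟩) hF _ _ l hSm
  refine ⟨LaurentSeries L, inferInstance, inferInstance, l0, c, ?_, g1, g2, ?_, ?_⟩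
  · exact Gen_of_end htr c l0 g2 (by rw [g3]; exact hGl)
  · intro g
    rw [g3, hDD]
    exact nonsq hDE h2tc g
  · intro T hT hTO A2 hdet hcon
    obtain ⟨M, α', h1, h2, h3⟩ := g6 T hT hTO
    rw [g3] at hcon
    have hmap : ∀ j k, Eqv (castM (LaurentSeries L) A2 j k) (castM L A2 j k) := by
      intro j k
      exact eqv_alg _
    have h4 : (castM L A2).mulVec wL = 0 := by
      funext j
      have h5 : Eqv (kap ^ M * l.2 j) ((castM L A2 j) ⬝ᵥ (fun k => α' * wL k)) := by
        rw [hcon]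
        have e1 : kap ^ M * (castM (LaurentSeries L) A2).mulVec l0.2 j =
            (castM (LaurentSeries L) A2 j) ⬝ᵥ (fun k => kap ^ M * l0.2 k) := by
          unfold Matrix.mulVec dotProduct
          rw [Finset.mul_sum]
          exact Finset.sum_congr rfl (fun k _ => by ring)
        rw [e1]
        exact eqv_dot (fun k => hmap j k) h3
      have h6 : Eqv (kap ^ M * l.2 j) 0 := by
        refine eqv_kap_pow_mul ?_ h1
        exact (hSm.hv j).mem
      have h7 := h5.unique h6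
      have h8 : (castM L A2 j) ⬝ᵥ (fun k => α' * wL k) = α' * (castM L A2).mulVec wL j := by
        unfold Matrix.mulVec dotProduct
        rw [Finset.mul_sum]
        exact Finset.sum_congr rfl (fun k _ => by ring)
      rw [h8] at h7
      exact (mul_eq_zero.mp h7).resolve_left h2
    have hdetL : (castM L A2).det ≠ 0 := by
      have e1 : (castM L A2).det = ((algebraMap ℂ L).comp Complex.ofRealHom) A2.det := by
        rw [RingHom.map_det]
        rfl
      rw [e1]
      intro h0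
      apply hdet
      have h9 : Function.Injective ((algebraMap ℂ L).comp Complex.ofRealHom) :=
        RingHom.injective _
      exact h9 (by rw [h0, map_zero])
    have h5 : wL = 0 := Matrix.eq_zero_of_mulVec_eq_zero hdetL h4
    have h6 : w ⬝ᵥ w' = 0 := by
      unfold dotProduct
      refine Finset.sum_eq_zero (fun k _ => ?_)
      have h7 : wL k = 0 := congrFun h5 k
      have h8 : w k = 0 := (FaithfulSMul.algebraMap_eq_zero_iff ℂ L).mp h7
      rw [h8, zero_mul]
    rw [h6] at hw2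
    norm_num at hw2

lemma castM_one (F : Type) [Field F] [Algebra ℂ F] :
    castM F (1 : Matrix (Fin n) (Fin n) ℝ) = 1 := by
  unfold castM
  rw [Matrix.map_one] <;> simp

theorem spec_of (hsq : S_sqrt) (htr : S_tr) (hgen : S_gen) (hw : S_w) : S_spec := by
  intro n hn W S hW hS hF
  obtain ⟨F, iF, iA, l, c, g1, g2, g3, g4, g5⟩ := spec2_of hsq htr hgen hw n hn W S hW hS hF
  refine ⟨F, iF, iA, l, c, g1, g2, g3, g4, ?_⟩
  intro T hT hTO hcon
  refine g5 T hT hTO 1 (by simp) ?_
  rw [castM_one, Matrix.one_mulVec]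
  exact hcon

end Pool.Agent.W567.IV
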